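import Pool.Agent.TH336.FE.Main

set_option autoImplicit false

open Filter Topology Set

namespace Pool.Agent.TH336.FE

namespace Sol

variable {f : ℝ → ℝ}

/-- the companion map -/
def gg (f : ℝ → ℝ) (x : ℝ) : ℝ := x + f x

lemma gg_cont (h : Sol f) : Continuous (gg f) := continuous_id.add h.cont

lemma gg_zero (h : Sol f) : gg f 0 = 0 := by simp only [gg]; rw [h.zero]; ring

lemma gg_comm (h : Sol f) (x : ℝ) : f (gg f x) = gg f (f x) := h.eqn x

lemma gg_mir (x : ℝ) : gg (FE.mir f) x = -gg f (-x) := by simp only [gg, FE.mir]; ring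

lemma gg_symm (h : Sol f) {x : ℝ} (hx : gg f x = 0) : gg f (-x) = 0 := by
  have h1 : f x = -x := by simp only [gg] at hx; linarith
  have h2 := h.gg_comm x
  rw [hx, h.zero, h1] at h2
  exact h2.symm

lemma shift (h : Sol f) {x w : ℝ} (hw : gg f w = 0) (hx : gg f x = w) : gg f (x - 2 * w) = w := by
  have hw' := h.gg_symm hw
  have e1 : f x = w - x := by simp only [gg] at hx; linarith
  have e2 : gg f (w - x) = -w := by
    rw [← e1, ← h.gg_comm, hx]
    simp only [gg] at hw; linarith
  have e3 : f (w - x) = x - 2 * w := by simp only [gg] at e2; linarith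
  rw [← e3, ← h.gg_comm, e2]
  simp only [gg] at hw'; linarith

lemma shiftN (h : Sol f) {x w : ℝ} (hw : gg f w = 0) (hx : gg f x = w) (n : ℕ) :
    gg f (x - n * (2 * w)) = w := by
  induction n with
  | zero => simpa using hx
  | succ n ih =>
    have := h.shift hw ih
    push_cast
    rw [show x - ((n : ℝ) + 1) * (2 * w) = x - n * (2 * w) - 2 * w by ring]
    exact this

/-- zeros of the companion map accumulate: right half-line -/
lemma gg_zero_right (h : Sol f) (hz : RZ (gg f)) : ∀ x, 0 < x → gg f x = 0 := by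
  by_contra hcon
  push Not at hcon
  obtain ⟨x0, hx0, hgx0⟩ := hcon
  rcases lt_or_gt_of_ne hgx0 with hneg | hpos
  · obtain ⟨α, hα0, hαx, hfα, hαpos⟩ := last_zero (φ := fun x => -gg f x) h.gg_cont.neg
      (by simp only [h.gg_zero, neg_zero]) hx0 (by show 0 < -gg f x0; linarith)
    have hfα : -gg f α = 0 := hfα
    have hαpos : ∀ x, α < x → x ≤ x0 → 0 < -gg f x := hαpos
    have : gg f x0 = 0 := by
      refine zero_of_approx h.gg_cont fun ε hε => ?_
      set x1 := min x0 (α + ε / 2) with hx1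
      have hx1α : α < x1 := lt_min hαx (by linarith)
      have hfx1 := hαpos x1 hx1α (min_le_left _ _)
      obtain ⟨c, hc0, hc1, hfc⟩ := hz (min (ε / 4) (-gg f x1)) (lt_min (by linarith) hfx1)
      have hfc' : gg f (-c) = 0 := h.gg_symm hfc
      have hc2 : c < ε / 4 := lt_of_lt_of_le hc1 (min_le_left _ _)
      have hc3 : c < -gg f x1 := lt_of_lt_of_le hc1 (min_le_right _ _)
      obtain ⟨x, hx, he⟩ := (isPreconnected_Icc (a := α) (b := x1)).intermediate_value₂
        ⟨hx1α.le, le_rfl⟩ ⟨le_rfl, hx1α.le⟩ h.gg_cont.continuousOn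
        (continuous_const (y := -c)).continuousOn (by linarith) (by linarith)
      have he : gg f x = -c := he
      have hxx0 : x ≤ x0 := hx.2.trans (min_le_left _ _)
      obtain ⟨n, hn⟩ := reach (show 0 < 2 * c by linarith) hxx0
      refine ⟨x - n * (2 * (-c)), ?_, ?_⟩
      · have e : x - n * (2 * (-c)) - x0 = x + n * (2 * c) - x0 := by ring
        rw [e]; linarith
      · rw [h.shiftN hfc' he n, abs_neg, abs_of_pos hc0]
        linarith
    linarith
  · obtain ⟨α, hα0, hαx, hfα, hαpos⟩ := last_zero h.gg_cont h.gg_zero hx0 hpos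
    have hzero : gg f (-x0) = 0 := by
      refine zero_of_approx h.gg_cont fun ε hε => ?_
      set x1 := min x0 (α + ε / 2) with hx1
      have hx1α : α < x1 := lt_min hαx (by linarith)
      have hfx1 := hαpos x1 hx1α (min_le_left _ _)
      obtain ⟨c, hc0, hc1, hfc⟩ := hz (min (ε / 4) (gg f x1)) (lt_min (by linarith) hfx1)
      have hc2 : c < ε / 4 := lt_of_lt_of_le hc1 (min_le_left _ _)
      have hc3 : c < gg f x1 := lt_of_lt_of_le hc1 (min_le_right _ _)
      obtain ⟨x, hx, he⟩ := (isPreconnected_Icc (a := α) (b := x1)).intermediate_value₂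
        ⟨le_rfl, hx1α.le⟩ ⟨hx1α.le, le_rfl⟩ h.gg_cont.continuousOn
        (continuous_const (y := c)).continuousOn (by rw [hfα]; exact hc0.le) hc3.le
      have he : gg f x = c := he
      obtain ⟨n, hn⟩ := reach (x := -x) (y := x0) (show 0 < 2 * c by linarith)
        (by linarith [hx.1])
      refine ⟨x - n * (2 * c), ?_, ?_⟩
      · have e : x - n * (2 * c) - -x0 = -(-x + n * (2 * c) - x0) := by ring
        rw [e, abs_neg]
        linarith
      · rw [h.shiftN hfc he n, abs_of_pos hc0]
        linarith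
    have := h.gg_symm hzero
    rw [neg_neg] at this
    exact hgx0 this

lemma neg_id (h : Sol f) (hz : RZ (gg f)) : ∀ x, f x = -1 * x := by
  have h1 := h.gg_zero_right hz
  intro x
  have : gg f x = 0 := by
    rcases lt_trichotomy x 0 with h' | h' | h'
    · have := h.gg_symm (h1 (-x) (by linarith))
      rwa [neg_neg] at this
    · rw [h', h.gg_zero]
    · exact h1 x h'
  simp only [gg] at this
  linarith

/-- globalisation of the expanding pattern -/
lemma global (h : Sol f) {δ : ℝ} (hδ : 0 < δ) (hr : ∀ x, 0 < x → x < δ → gg f x < 0)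
    (hl : ∀ x, 0 < x → x < δ → 0 < gg f (-x)) : ∀ x, 0 < x → gg f x < 0 ∧ 0 < gg f (-x) := by
  by_contra hcon
  push Not at hcon
  obtain ⟨x0, hx0, hgx0⟩ := hcon
  set S := Ici δ ∩ (gg f) ⁻¹' {0} with hS
  have hSc : IsClosed S := isClosed_Ici.inter (isClosed_singleton.preimage h.gg_cont)
  have hzr : ∀ x, 0 < x → 0 ≤ gg f x → ∃ z ∈ S, z ≤ x := by
    intro x hx hfx
    have hxδ : δ ≤ x := by
      by_contra hlt
      push Not at hlt
      linarith [hr x hx hlt]
    obtain ⟨z, hz, he⟩ := (isPreconnected_Icc (a := δ / 2) (b := x)).intermediate_value₂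
      ⟨le_rfl, by linarith⟩ ⟨by linarith, le_rfl⟩ h.gg_cont.continuousOn
      (continuous_const (y := (0:ℝ))).continuousOn (hr (δ / 2) (by linarith) (by linarith)).le hfx
    refine ⟨z, ⟨?_, he⟩, hz.2⟩
    by_contra hlt
    simp only [mem_Ici, not_le] at hlt
    have := hr z (by linarith [hz.1]) hlt
    rw [he] at this
    exact lt_irrefl _ this
  have hzl : ∀ x, 0 < x → gg f (-x) ≤ 0 → ∃ z ∈ S, z ≤ x := by
    intro x hx hfx
    have hxδ : δ ≤ x := by
      by_contra hlt
      push Not at hlt
      linarith [hl x hx hlt]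
    obtain ⟨z, hz, he⟩ := (isPreconnected_Icc (a := δ / 2) (b := x)).intermediate_value₂
      ⟨by linarith, le_rfl⟩ ⟨le_rfl, by linarith⟩ (h.gg_cont.comp continuous_neg).continuousOn
      (continuous_const (y := (0:ℝ))).continuousOn hfx (hl (δ / 2) (by linarith) (by linarith)).le
    have he : gg f (-z) = 0 := he
    refine ⟨z, ⟨?_, by have := h.gg_symm he; rwa [neg_neg] at this⟩, hz.2⟩
    by_contra hlt
    simp only [mem_Ici, not_le] at hlt
    have := hl z (by linarith [hz.1]) hlt
    rw [he] at this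
    exact lt_irrefl _ this
  have hSne : S.Nonempty := by
    by_cases h1 : 0 ≤ gg f x0
    · obtain ⟨z, hz, _⟩ := hzr x0 hx0 h1; exact ⟨z, hz⟩
    · push Not at h1
      obtain ⟨z, hz, _⟩ := hzl x0 hx0 (hgx0 h1); exact ⟨z, hz⟩
  have hSb : BddBelow S := ⟨δ, fun x hx => hx.1⟩
  have hmem := hSc.csInf_mem hSne hSb
  set β := sInf S with hβ
  have hβδ : δ ≤ β := hmem.1
  have hβ0 : 0 < β := by linarith
  have hgβ : gg f β = 0 := hmem.2
  have hgβ' : gg f (-β) = 0 := h.gg_symm hgβ
  have hneg : ∀ x, 0 < x → x < β → gg f x < 0 := by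
    intro x hx hxβ
    by_contra hle
    push Not at hle
    obtain ⟨z, hz, hzx⟩ := hzr x hx hle
    have := csInf_le hSb hz
    linarith
  have hpos : ∀ x, -β < x → x < 0 → 0 < gg f x := by
    intro x hxβ hx
    by_contra hle
    push Not at hle
    obtain ⟨z, hz, hzx⟩ := hzl (-x) (by linarith) (by rwa [neg_neg])
    have := csInf_le hSb hz
    linarith
  -- `f` maps `(0, β)` to `(-β, 0)` and conversely
  have hA : ∀ x, 0 < x → x < β → -β < f x ∧ f x < -x := by
    intro x hx hxβ
    have h1 := hneg x hx hxβ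
    simp only [gg] at h1
    refine ⟨?_, by linarith⟩
    by_contra hle
    push Not at hle
    obtain ⟨x1, hx1, he⟩ := (isPreconnected_Icc (a := (0:ℝ)) (b := x)).intermediate_value₂
      ⟨hx.le, le_rfl⟩ ⟨le_rfl, hx.le⟩ h.cont.continuousOn
      (continuous_const (y := -β)).continuousOn hle (by rw [h.zero]; linarith)
    have he : f x1 = -β := he
    have hx1pos : 0 < x1 := by
      rcases hx1.1.eq_or_lt with h0 | h0
      · rw [← h0, h.zero] at he; linarith
      · exact h0
    have h2 := h.gg_comm x1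
    rw [he, hgβ'] at h2
    have h3 : gg f x1 = x1 - β := by simp only [gg]; rw [he]; ring
    have h4 := hpos (gg f x1) (by rw [h3]; linarith) (by rw [h3]; linarith [hx1.2])
    have h5 : gg f (gg f x1) = gg f x1 + f (gg f x1) := rfl
    rw [h2] at h5
    rw [h5, h3] at h4
    linarith [hx1.2]
  have hB : ∀ x, -β < x → x < 0 → -x < f x ∧ f x < β := by
    intro x hxβ hx
    have h1 := hpos x hxβ hx
    simp only [gg] at h1
    refine ⟨by linarith, ?_⟩
    by_contra hle
    push Not at hle
    obtain ⟨x1, hx1, he⟩ := (isPreconnected_Icc (a := x) (b := (0:ℝ))).intermediate_value₂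
      ⟨hx.le, le_rfl⟩ ⟨le_rfl, hx.le⟩ h.cont.continuousOn
      (continuous_const (y := β)).continuousOn (by rw [h.zero]; linarith) hle
    have he : f x1 = β := he
    have hx1neg : x1 < 0 := by
      rcases hx1.2.eq_or_lt with h0 | h0
      · rw [h0, h.zero] at he; linarith
      · exact h0
    have h2 := h.gg_comm x1
    rw [he, hgβ] at h2
    have h3 : gg f x1 = x1 + β := by simp only [gg]; rw [he]
    have h4 := hneg (gg f x1) (by rw [h3]; linarith [hx1.1]) (by rw [h3]; linarith)
    have h5 : gg f (gg f x1) = gg f x1 + f (gg f x1) := rfl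
    rw [h2] at h5
    rw [h5, h3] at h4
    linarith [hx1.1]
  set F2 : ℝ → ℝ := fun x => f (f x) with hF2
  have hF2c : Continuous F2 := h.cont.comp h.cont
  have hC : ∀ x, 0 < x → x < β → x < F2 x ∧ F2 x < β := by
    intro x hx hxβ
    have h1 := hA x hx hxβ
    have h2 := hB (f x) h1.1 (by linarith)
    exact ⟨by simp only [hF2]; linarith, h2.2⟩
  have hD : ∀ x, -β < x → x < 0 → -β < F2 x ∧ F2 x < x := by
    intro x hxβ hx
    have h1 := hB x hxβ hx
    have h2 := hA (f x) (by linarith) h1.2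
    exact ⟨h2.1, by simp only [hF2]; linarith⟩
  set x := β / 2 with hxdef
  have hx0' : 0 < x := by rw [hxdef]; linarith
  have hxβ : x < β := by rw [hxdef]; linarith
  have hin : ∀ n, 0 < F2^[n] x ∧ F2^[n] x < β := by
    intro n
    induction n with
    | zero => exact ⟨hx0', hxβ⟩
    | succ n ih =>
      rw [Function.iterate_succ_apply']
      have := hC _ ih.1 ih.2
      exact ⟨by linarith, this.2⟩
  have hmono : Monotone (fun n => F2^[n] x) := by
    refine monotone_nat_of_le_succ fun n => ?_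
    show F2^[n] x ≤ F2^[n + 1] x
    rw [Function.iterate_succ_apply']
    exact (hC _ (hin n).1 (hin n).2).1.le
  have hbdd : BddAbove (range fun n => F2^[n] x) := ⟨β, by rintro _ ⟨n, rfl⟩; exact (hin n).2.le⟩
  have hlim := tendsto_atTop_ciSup hmono hbdd
  set L := ⨆ n, F2^[n] x with hL
  have hLβ : L ≤ β := ciSup_le fun n => (hin n).2.le
  have hL0 : 0 < L := lt_of_lt_of_le hx0' (le_ciSup hbdd 0)
  have hfix : F2 L = L := by
    have h1 : Tendsto (fun n => F2^[n + 1] x) atTop (𝓝 L) := (tendsto_add_atTop_iff_nat 1).2 hlim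
    have h2 : Tendsto (fun n => F2 (F2^[n] x)) atTop (𝓝 (F2 L)) := (hF2c.tendsto L).comp hlim
    refine tendsto_nhds_unique h2 (h1.congr fun n => ?_)
    rw [Function.iterate_succ_apply']
  have hLβ' : L = β := by
    rcases hLβ.eq_or_lt with h' | h'
    · exact h'
    · have := (hC L hL0 h').1
      linarith
  rw [hLβ'] at hlim
  have l1 : Tendsto (fun n => gg f (F2^[n] x)) atTop (𝓝 (gg f β)) :=
    (h.gg_cont.tendsto β).comp hlim
  rw [hgβ] at l1
  have hcomm : ∀ n, gg f (F2^[n] x) = F2^[n] (gg f x) := by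
    intro n
    have hc : Function.Commute (gg f) F2 := by
      intro y
      simp only [hF2]
      rw [← h.gg_comm, ← h.gg_comm]
    exact (hc.iterate_right n) x
  have hgx : gg f x < 0 := hneg x hx0' hxβ
  have hgx' : -β < gg f x := by
    have := (hA x hx0' hxβ).1
    simp only [gg]; linarith
  have hin' : ∀ n, -β < F2^[n] (gg f x) ∧ F2^[n] (gg f x) ≤ gg f x := by
    intro n
    induction n with
    | zero => exact ⟨hgx', le_rfl⟩
    | succ n ih =>
      rw [Function.iterate_succ_apply']
      have := hD _ ih.1 (by linarith)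
      exact ⟨this.1, by linarith⟩
  have l2 : (0 : ℝ) ≤ gg f x := le_of_tendsto' l1 fun n => by
    rw [hcomm]; exact (hin' n).2
  linarith

/-- the expanding case -/
lemma expanding (h : Sol f) {δ : ℝ} (hδ : 0 < δ) (hr : ∀ x, 0 < x → x < δ → gg f x < 0)
    (hl : ∀ x, 0 < x → x < δ → 0 < gg f (-x)) : ∃ a : ℝ, ∀ x, f x = a * x := by
  have hglob := h.global hδ hr hl
  have hE : Expd (-1) (gg f) f := by
    refine ⟨Or.inr rfl, h.gg_cont, h.gg_zero, fun x => by simp only [gg]; ring, ?_,
      fun x => (h.gg_comm x).symm⟩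
    intro x hx
    rcases lt_or_gt_of_ne hx with h' | h'
    · have := (hglob (-x) (by linarith)).2
      rw [neg_neg] at this
      nlinarith
    · have := (hglob x h').1
      nlinarith
  have hE' : Expd (-1) (gg (FE.mir f)) (FE.mir f) := by
    refine ⟨Or.inr rfl, h.mir.gg_cont, h.mir.gg_zero, fun x => by simp only [gg]; ring, ?_,
      fun x => (h.mir.gg_comm x).symm⟩
    intro x hx
    rw [gg_mir]
    rcases lt_or_gt_of_ne hx with h' | h'
    · have := (hglob (-x) (by linarith)).1
      nlinarith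
    · have := (hglob x h').2
      nlinarith
  obtain ⟨c, hc, hlin⟩ := hE.linear
  obtain ⟨c', hc', hlin'⟩ := hE'.linear
  have f1 : ∀ x, 0 < x → f x = -(1 + c) * x := by
    intro x hx
    have := hlin x hx
    simp only [gg] at this
    linarith
  have f2 : ∀ x, x < 0 → f x = -(1 + c') * x := by
    intro x hx
    have := hlin' (-x) (by linarith)
    rw [gg_mir, neg_neg] at this
    simp only [gg] at this
    linarith
  have hcc : c = c' := by
    have h1 := h.gg_comm 1
    have h2 : gg f 1 = -c := by simp only [gg]; rw [f1 1 one_pos]; ring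
    rw [h2, f2 (-c) (by linarith), f1 1 one_pos] at h1
    have h3 : gg f (-(1 + c) * 1) = c' * (1 + c) := by
      simp only [gg]
      rw [f2 (-(1 + c) * 1) (by linarith)]
      ring
    rw [h3] at h1
    linarith
  refine ⟨-(1 + c), fun x => ?_⟩
  rcases lt_trichotomy x 0 with h' | h' | h'
  · rw [f2 x h', hcc]
  · rw [h', h.zero]; ring
  · exact f1 x h'

/-- extension of linearity -/
lemma extend (h : Sol f) {a c0 : ℝ} (ha0 : 0 < a) (ha1 : a < 1) (hc0 : 0 < c0)
    (hlin : ∀ x, |x| < c0 → f x = -a * x) : ∀ x, f x = -a * x := by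
  by_contra hcon
  push Not at hcon
  obtain ⟨x0, hx0⟩ := hcon
  set S : Set ℝ := {r | ∃ x, |x| = r ∧ f x ≠ -a * x} with hS
  have hSne : S.Nonempty := ⟨|x0|, x0, rfl, hx0⟩
  have hSb : BddBelow S := ⟨0, by rintro _ ⟨x, rfl, _⟩; exact abs_nonneg x⟩
  set ρ := sInf S with hρ
  have hρc : c0 ≤ ρ := by
    apply le_csInf hSne
    rintro _ ⟨x, rfl, hx⟩
    by_contra hlt
    push Not at hlt
    exact hx (hlin x hlt)
  have hρ0 : 0 < ρ := by linarith
  have hin : ∀ x, |x| < ρ → f x = -a * x := by
    intro x hx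
    by_contra hne
    have := csInf_le hSb ⟨x, rfl, hne⟩
    linarith
  have hcl : ∀ x, |x| ≤ ρ → f x = -a * x := by
    intro x hx
    have hcls : IsClosed {x : ℝ | f x = -a * x} :=
      isClosed_eq h.cont (continuous_const.mul continuous_id)
    have hsub : closure (Metric.ball (0:ℝ) ρ) ⊆ {x : ℝ | f x = -a * x} := by
      apply closure_minimal _ hcls
      intro y hy
      rw [Metric.mem_ball, dist_zero_right, Real.norm_eq_abs] at hy
      exact hin y hy
    apply hsub
    rw [closure_ball (0:ℝ) hρ0.ne', Metric.mem_closedBall, dist_zero_right, Real.norm_eq_abs]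
    exact hx
  have hnear : ∀ y, |y| = ρ → ∃ ε > 0, ∀ x, |x - y| < ε → |f x| < ρ ∧ |x + f x| < ρ := by
    intro y hy
    have hfy := hcl y hy.le
    have h1 : |f y| < ρ := by
      rw [hfy, abs_mul, abs_neg, abs_of_pos ha0, hy]
      nlinarith
    have h2 : |y + f y| < ρ := by
      rw [hfy, show y + -a * y = (1 - a) * y by ring, abs_mul, abs_of_pos (by linarith), hy]
      nlinarith
    have e1 : ∀ᶠ x in 𝓝 y, |f x| < ρ := (h.cont.abs.tendsto y).eventually_lt_const h1
    have e2 : ∀ᶠ x in 𝓝 y, |x + f x| < ρ :=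
      ((continuous_id.add h.cont).abs.tendsto y).eventually_lt_const h2
    obtain ⟨ε, hε, hε'⟩ := Metric.eventually_nhds_iff.1 (e1.and e2)
    exact ⟨ε, hε, fun x hx => hε' (by rwa [Real.dist_eq])⟩
  obtain ⟨ε1, hε1, H1⟩ := hnear ρ (abs_of_pos hρ0)
  obtain ⟨ε2, hε2, H2⟩ := hnear (-ρ) (by rw [abs_neg, abs_of_pos hρ0])
  obtain ⟨r, hr, hr2⟩ := exists_lt_of_csInf_lt hSne
    (show sInf S < ρ + min ε1 ε2 by linarith [lt_min hε1 hε2])
  obtain ⟨x, rfl, hne⟩ := hr
  have hxρ : ρ ≤ |x| := by
    by_contra hlt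
    push Not at hlt
    exact hne (hin x hlt)
  have hkey : |f x| < ρ ∧ |x + f x| < ρ := by
    rcases le_or_gt 0 x with h' | h'
    · apply H1
      rw [abs_of_nonneg h'] at hxρ hr2
      rw [abs_of_nonneg (by linarith)]
      linarith [min_le_left ε1 ε2]
    · apply H2
      rw [abs_of_neg h'] at hxρ hr2
      rw [abs_of_nonpos (by linarith)]
      linarith [min_le_right ε1 ε2]
  have h1 := hin _ hkey.1
  have h2 := hin _ hkey.2
  have h3 := h.eqn x
  rw [h1, h2] at h3
  apply hne
  linarith

/-- the contracting case -/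
lemma contracting (h : Sol f) {δ : ℝ} (hδ : 0 < δ)
    (hfr : ∀ x, 0 < x → x < δ → f x < 0) (hfl : ∀ x, 0 < x → x < δ → 0 < f (-x))
    (hr : ∀ x, 0 < x → x < δ → 0 < gg f x)
    (hl : ∀ x, 0 < x → x < δ → gg f (-x) < 0) : ∃ a : ℝ, ∀ x, f x = a * x := by
  have hC : Ctr f (gg f) δ := by
    refine ⟨h.cont, h.zero, fun x => rfl, h.gg_comm, hδ, ?_, ?_⟩
    · intro x hx hxδ
      rcases lt_or_gt_of_ne hx with h' | h'
      · have := hfl (-x) (by linarith) (by rwa [abs_of_neg h'] at hxδ)
        rw [neg_neg] at this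
        nlinarith
      · have := hfr x h' (by rwa [abs_of_pos h'] at hxδ)
        nlinarith
    · intro x hx hxδ
      rcases lt_or_gt_of_ne hx with h' | h'
      · have := hl (-x) (by linarith) (by rwa [abs_of_neg h'] at hxδ)
        rw [neg_neg] at this
        nlinarith
      · have := hr x h' (by rwa [abs_of_pos h'] at hxδ)
        nlinarith
  have hC' : Ctr (FE.mir f) (gg (FE.mir f)) δ := by
    refine ⟨h.mir.cont, h.mir.zero, fun x => rfl, h.mir.gg_comm, hδ, ?_, ?_⟩
    · intro x hx hxδ
      simp only [FE.mir]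
      rcases lt_or_gt_of_ne hx with h' | h'
      · have := hfr (-x) (by linarith) (by rwa [abs_of_neg h'] at hxδ)
        nlinarith
      · have := hfl x h' (by rwa [abs_of_pos h'] at hxδ)
        nlinarith
    · intro x hx hxδ
      rw [gg_mir]
      rcases lt_or_gt_of_ne hx with h' | h'
      · have := hr (-x) (by linarith) (by rwa [abs_of_neg h'] at hxδ)
        nlinarith
      · have := hl x h' (by rwa [abs_of_pos h'] at hxδ)
        nlinarith
  obtain ⟨a, c, ha0, ha1, hc, hlin⟩ := hC.linear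
  obtain ⟨a', c', ha0', ha1', hc', hlin'⟩ := hC'.linear
  have f2 : ∀ x, 0 < x → x < c' → f (-x) = a' * x := by
    intro x hx hxc
    have := hlin' x hx hxc
    simp only [FE.mir] at this
    linarith
  have haa : a = a' := by
    set x := min c c' / 2 with hx
    have hm : 0 < min c c' := lt_min hc hc'
    have hx0 : 0 < x := by rw [hx]; linarith
    have hxc : x < c := by have := min_le_left c c'; rw [hx]; linarith
    have hxc' : x < c' := by have := min_le_right c c'; rw [hx]; linarith
    have h1 := h.gg_comm x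
    have e1 : f x = -(a * x) := by rw [hlin x hx0 hxc]; ring
    have e2 : gg f x = (1 - a) * x := by simp only [gg]; rw [e1]; ring
    have e3 : gg f (-(a * x)) = -(a * x) + a' * (a * x) := by
      simp only [gg]
      rw [f2 (a * x) (by positivity) (by nlinarith)]
    rw [e1, e2, e3, hlin ((1 - a) * x) (mul_pos (by linarith) hx0) (by nlinarith)] at h1
    have h2 : a * x * (a - a') = 0 := by linarith
    have h3 : a * x ≠ 0 := by positivity
    have := (mul_eq_zero.1 h2).resolve_left h3
    linarith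
  refine ⟨-a, h.extend (c0 := min c c') ha0 ha1 (lt_min hc hc') fun x hx => ?_⟩
  rcases lt_trichotomy x 0 with h' | h' | h'
  · rw [abs_of_neg h'] at hx
    have := f2 (-x) (by linarith) (lt_of_lt_of_le hx (min_le_right _ _))
    rw [neg_neg] at this
    rw [this, ← haa]; ring
  · rw [h', h.zero]; ring
  · rw [abs_of_pos h'] at hx
    exact hlin x h' (lt_of_lt_of_le hx (min_le_left _ _))

/-- the two-sided inward case -/
lemma inward (h : Sol f) (h1 : RN f) (h2 : RN (FE.mir f)) : ∃ a : ℝ, ∀ x, f x = a * x := by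
  obtain ⟨δ1, hδ1, H1⟩ := h1
  obtain ⟨δ2, hδ2, H2⟩ := h2
  by_cases hz : RZ (gg f)
  · exact ⟨-1, h.neg_id hz⟩
  unfold RZ at hz
  push Not at hz
  obtain ⟨δ3, hδ3, H3⟩ := hz
  set δ := min δ1 (min δ2 δ3) with hδdef
  have hδ : 0 < δ := lt_min hδ1 (lt_min hδ2 hδ3)
  have d1 : δ ≤ δ1 := min_le_left _ _
  have d2 : δ ≤ δ2 := (min_le_right _ _).trans (min_le_left _ _)
  have d3 : δ ≤ δ3 := (min_le_right _ _).trans (min_le_right _ _)
  have hfr : ∀ x, 0 < x → x < δ → f x < 0 := fun x hx hx' => H1 x hx (by linarith)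
  have hfl : ∀ x, 0 < x → x < δ → 0 < f (-x) := fun x hx hx' => by
    have := H2 x hx (by linarith)
    simp only [FE.mir] at this
    linarith
  have hg1 := const_sign h.gg_cont (δ := δ) fun x hx hx' => H3 x hx (by linarith)
  have hg2 := const_sign (h.gg_cont.comp continuous_neg) (δ := δ) fun x hx hx' h0 => by
    have h0 : gg f (-x) = 0 := h0
    have := h.gg_symm h0
    rw [neg_neg] at this
    exact H3 x hx (by linarith) this
  have hm0 : 0 < δ / 2 := by linarith
  have hm1 : δ / 2 < δ := by linarith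
  rcases hg1 with hg1 | hg1 <;> rcases hg2 with hg2 | hg2
  · -- (+,+)
    exfalso
    have hg2 : ∀ x, 0 < x → x < δ → 0 < gg f (-x) := hg2
    have a1 := hfr _ hm0 hm1
    have a2 := hg1 _ hm0 hm1
    have a3 : -f (δ / 2) < δ := by simp only [gg] at a2; linarith
    have a4 := hg2 (-f (δ / 2)) (by linarith) a3
    rw [neg_neg] at a4
    have a5 : gg f (δ / 2) < δ := by simp only [gg]; linarith
    have a6 := hfr _ a2 a5
    rw [h.gg_comm] at a6
    linarith
  · exact h.contracting hδ hfr hfl hg1 hg2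
  · exact h.expanding hδ hg1 hg2
  · -- (-,-)
    exfalso
    have hg2 : ∀ x, 0 < x → x < δ → gg f (-x) < 0 := hg2
    have a1 := hfl _ hm0 hm1
    have a2 := hg2 _ hm0 hm1
    have a3 : f (-(δ / 2)) < δ := by simp only [gg] at a2; linarith
    have a4 := hg1 (f (-(δ / 2))) a1 a3
    have a5 : -gg f (-(δ / 2)) < δ := by simp only [gg]; linarith
    have a6 := hfl (-gg f (-(δ / 2))) (by linarith) a5
    rw [neg_neg, h.gg_comm] at a6
    linarith

/-- conclusion if the solution is positive near zero on the right -/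
lemma half (h : Sol f) (hp : RP f) : ∃ a b : ℝ, 0 ≤ a ∧ 0 ≤ b ∧
    (∀ x, 0 ≤ x → f x = a * x) ∧ ∀ x, x ≤ 0 → f x = b * x := by
  obtain ⟨a, ha, hlin⟩ := h.right_linear hp
  have hleft := h.left_nonpos ha hlin
  rcases tri h.mir.cont with h' | h' | h'
  · obtain ⟨b, hb, hlin'⟩ := h.mir.right_linear h'
    refine ⟨a, b, ha.le, hb.le, hlin, fun x hx => ?_⟩
    have := hlin' (-x) (by linarith)
    simp only [FE.mir, neg_neg] at this
    linarith
  · exfalso
    obtain ⟨δ, hδ, H⟩ := h'
    have h1 := H (δ / 2) (by linarith) (by linarith)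
    have h2 := hleft (-(δ / 2)) (by linarith)
    simp only [FE.mir] at h1
    linarith
  · have h1 := h.mir.nonpos_of_RZ h'
    refine ⟨a, 0, ha.le, le_rfl, hlin, fun x hx => ?_⟩
    rcases hx.eq_or_lt with h0 | h0
    · rw [h0, h.zero]; ring
    · have h2 := h1 (-x) (by linarith)
      have h3 := hleft x h0
      simp only [FE.mir, neg_neg] at h2
      linarith

/-- **Classification of the continuous solutions.** -/
theorem classify (h : Sol f) : ∃ a b : ℝ, (a = b ∨ (0 ≤ a ∧ 0 ≤ b)) ∧
    (∀ x, 0 ≤ x → f x = a * x) ∧ ∀ x, x ≤ 0 → f x = b * x := by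
  have hlin : (∃ a : ℝ, ∀ x, f x = a * x) → ∃ a b : ℝ, (a = b ∨ (0 ≤ a ∧ 0 ≤ b)) ∧
      (∀ x, 0 ≤ x → f x = a * x) ∧ ∀ x, x ≤ 0 → f x = b * x := by
    rintro ⟨a, ha⟩
    exact ⟨a, a, Or.inl rfl, fun x _ => ha x, fun x _ => ha x⟩
  have hmir2 : Sol (FE.mir (FE.mir f)) := h.mir.mir
  rcases tri h.cont with h1 | h1 | h1
  · obtain ⟨a, b, ha, hb, h2, h3⟩ := h.half h1
    exact ⟨a, b, Or.inr ⟨ha, hb⟩, h2, h3⟩
  · rcases tri h.mir.cont with h2 | h2 | h2
    · obtain ⟨a, b, ha, hb, h3, h4⟩ := h.mir.half h2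
      refine ⟨b, a, Or.inr ⟨hb, ha⟩, fun x hx => ?_, fun x hx => ?_⟩
      · have := h4 (-x) (by linarith)
        simp only [FE.mir, neg_neg] at this
        linarith
      · have := h3 (-x) (by linarith)
        simp only [FE.mir, neg_neg] at this
        linarith
    · exact hlin (h.inward h1 h2)
    · exfalso
      obtain ⟨δ, hδ, H⟩ := h1
      have a1 := H (δ / 2) (by linarith) (by linarith)
      have a2 := h.nonneg_of_LZ h2 (δ / 2) (by linarith)
      linarith
  · rcases tri h.mir.cont with h2 | h2 | h2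
    · obtain ⟨a, b, ha, hb, h3, h4⟩ := h.mir.half h2
      refine ⟨b, a, Or.inr ⟨hb, ha⟩, fun x hx => ?_, fun x hx => ?_⟩
      · have := h4 (-x) (by linarith)
        simp only [FE.mir, neg_neg] at this
        linarith
      · have := h3 (-x) (by linarith)
        simp only [FE.mir, neg_neg] at this
        linarith
    · exfalso
      obtain ⟨δ, hδ, H⟩ := h2
      have a1 := H (δ / 2) (by linarith) (by linarith)
      have h1' : RZ (FE.mir (FE.mir f)) := by rw [mir_mir]; exact h1
      have a2 := h.mir.nonneg_of_LZ h1' (δ / 2) (by linarith)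
      linarith
    · have b1 := h.nonpos_of_RZ h1
      have b2 := h.nonneg_of_LZ h2
      have h1' : RZ (FE.mir (FE.mir f)) := by rw [mir_mir]; exact h1
      have b3 := h.mir.nonpos_of_RZ h2
      have b4 := h.mir.nonneg_of_LZ h1'
      apply hlin
      refine ⟨0, fun x => ?_⟩
      rcases lt_trichotomy x 0 with h' | h' | h'
      · have c1 := b3 (-x) (by linarith)
        have c2 := b4 (-x) (by linarith)
        simp only [FE.mir, neg_neg] at c1 c2
        linarith
      · rw [h', h.zero]; ring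
      · have c1 := b1 x h'
        have c2 := b2 x h'
        linarith

end Sol

end Pool.Agent.TH336.FE
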