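import Mathlib

set_option autoImplicit false

open Filter Topology Set

namespace Pool.Agent.TH336.FE

lemma dense_nat_int {A B : ℝ} (h : Irrational (A / B)) {s t : ℝ} (hst : s < t) :
    ∃ (k : ℕ) (n : ℤ), s < k * A + n * B ∧ k * A + n * B < t := by
  have hB : B ≠ 0 := by
    rintro rfl
    rw [div_zero] at h
    exact h ⟨0, by simp⟩
  have hdense := dense_addSubgroupClosure_pair_iff.2 h
  have hmem : ∀ x ∈ (AddSubgroup.closure ({A, B} : Set ℝ) : Set ℝ),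
      ∃ m n : ℤ, (m : ℝ) * A + n * B = x := by
    intro x hx
    obtain ⟨m, n, hmn⟩ := AddSubgroup.mem_closure_pair.1 hx
    exact ⟨m, n, by simpa [zsmul_eq_mul] using hmn⟩
  set w := (t - s) / 2 with hw
  have hwpos : 0 < w := by rw [hw]; linarith
  obtain ⟨d1, hd1, hd1D⟩ := hdense.exists_between (show (s + t) / 2 - w / 2 < (s + t) / 2 + w / 2 by
    linarith)
  obtain ⟨m, n, hmn⟩ := hmem d1 hd1
  obtain ⟨K, hK⟩ : ∃ K : ℕ, (K : ℤ) = |m| := ⟨m.natAbs, by simp⟩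
  have hub : 0 < min (w / (2 * (K + 1))) |B| := lt_min (by positivity) (abs_pos.2 hB)
  obtain ⟨d2, hd2, hd2D⟩ := hdense.exists_between hub
  obtain ⟨m', n', hmn'⟩ := hmem d2 hd2
  have hd2a : d2 < w / (2 * (K + 1)) := lt_of_lt_of_le hd2D.2 (min_le_left _ _)
  have hd2b : d2 < |B| := lt_of_lt_of_le hd2D.2 (min_le_right _ _)
  have hm' : m' ≠ 0 := by
    rintro rfl
    have h1 : (n' : ℝ) * B = d2 := by rw [← hmn']; simp
    have h2 : |(n' : ℝ)| * |B| < |B| := by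
      rw [← abs_mul, h1, abs_of_pos hd2D.1]; exact hd2b
    have h3 : |(n' : ℝ)| < 1 := by
      by_contra hc
      push Not at hc
      have := abs_nonneg B
      nlinarith
    have h4 : |n'| < 1 := by exact_mod_cast h3
    have h5 : n' = 0 := by
      rw [Int.abs_lt_one_iff] at h4; exact h4
    rw [h5] at h1
    simp at h1
    linarith [hd2D.1]
  have hKd : (K : ℝ) * d2 < w / 2 := by
    have h6 : (K : ℝ) * d2 ≤ K * (w / (2 * (K + 1))) :=
      mul_le_mul_of_nonneg_left hd2a.le (by positivity)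
    have h7 : (K : ℝ) * (w / (2 * (K + 1))) < w / 2 := by
      rw [mul_div_assoc', div_lt_div_iff₀ (by positivity) (by norm_num)]
      nlinarith
    linarith
  have hKd0 : 0 ≤ (K : ℝ) * d2 := mul_nonneg (by positivity) hd2D.1.le
  have hmK : -(K : ℤ) ≤ m := by rw [hK]; exact neg_abs_le m
  rcases lt_or_gt_of_ne hm' with hneg | hpos
  · have hk : 0 ≤ m - K * m' := by nlinarith
    refine ⟨(m - K * m').toNat, n - K * n', ?_⟩
    have hcast : (((m - K * m').toNat : ℕ) : ℝ) = (m : ℝ) - K * m' := by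
      have : (((m - K * m').toNat : ℕ) : ℤ) = m - K * m' := Int.toNat_of_nonneg hk
      exact_mod_cast congrArg (Int.cast : ℤ → ℝ) this
    rw [hcast]
    push_cast
    have e : ((m : ℝ) - K * m') * A + (n - K * n') * B = d1 - K * d2 := by
      rw [← hmn, ← hmn']; ring
    rw [e]
    constructor <;> [linarith [hd1D.1]; linarith [hd1D.2]]
  · have hk : 0 ≤ m + K * m' := by nlinarith
    refine ⟨(m + K * m').toNat, n + K * n', ?_⟩
    have hcast : (((m + K * m').toNat : ℕ) : ℝ) = (m : ℝ) + K * m' := by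
      have : (((m + K * m').toNat : ℕ) : ℤ) = m + K * m' := Int.toNat_of_nonneg hk
      exact_mod_cast congrArg (Int.cast : ℤ → ℝ) this
    rw [hcast]
    push_cast
    have e : ((m : ℝ) + K * m') * A + (n + K * n') * B = d1 + K * d2 := by
      rw [← hmn, ← hmn']; ring
    rw [e]
    constructor <;> [linarith [hd1D.1]; linarith [hd1D.2]]

/-- One-directional moves inside a downward closed set. -/
lemma pow_move {I : Set ℝ} (hI : ∀ x ∈ I, 0 < x)
    (hdown : ∀ x ∈ I, ∀ y, 0 < y → y ≤ x → y ∈ I) {P : ℝ → Prop} {ρ : ℝ} (hρ : 0 < ρ)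
    (hPI : ∀ x, P x → x ∈ I) (hmove : ∀ x, P x → ρ * x ∈ I → P (ρ * x)) :
    ∀ (m : ℕ) (x : ℝ), P x → ρ ^ m * x ∈ I → P (ρ ^ m * x) := by
  intro m
  induction m with
  | zero => intro x hx _; simpa using hx
  | succ m ih =>
    intro x hx hxI
    have h0 : 0 < x := hI x (hPI x hx)
    have e : ρ ^ (m + 1) * x = ρ ^ m * (ρ * x) := by ring
    have h1 : ρ * x ∈ I := by
      rcases le_total ρ 1 with h | h
      · exact hdown x (hPI x hx) _ (by positivity) (by nlinarith)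
      · refine hdown _ hxI _ (by positivity) ?_
        rw [e]
        have : 1 ≤ ρ ^ m := one_le_pow₀ h
        have h2 : 0 < ρ * x := by positivity
        nlinarith
    rw [e]
    rw [e] at hxI
    exact ih (ρ * x) (hmove x hx h1) hxI

theorem abstract_const (I : Set ℝ) (hI : ∀ x ∈ I, 0 < x)
    (hdown : ∀ x ∈ I, ∀ y, 0 < y → y ≤ x → y ∈ I)
    (R : ℝ → ℝ) (hR : ∀ x ∈ I, ContinuousAt R x)
    (J : Set ℝ) (hJ : J.OrdConnected) (hRJ : ∀ x ∈ I, R x ∈ J)
    (κ π : ℝ → ℝ) (hκc : ContinuousOn κ J) (hπc : ContinuousOn π J)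
    (hκ0 : ∀ a ∈ J, 0 < κ a) (hπ0 : ∀ a ∈ J, 0 < π a) (hπ1 : ∀ a ∈ J, π a ≠ 1)
    (hinj : Set.InjOn (fun a => Real.log (κ a) / Real.log (π a)) J)
    (P : ℝ → ℝ → Prop) (hPI : ∀ a x, P a x → x ∈ I ∧ R x = a)
    (hPκ : ∀ a x, P a x → P a (κ a * x))
    (hPπ : ∀ a x, P a x → π a * x ∈ I → P a (π a * x))
    (hPπ' : ∀ a x, P a x → (π a)⁻¹ * x ∈ I → P a ((π a)⁻¹ * x))
    (hPc : ∀ (a x : ℕ → ℝ) (a0 x0 : ℝ), Tendsto a atTop (𝓝 a0) → Tendsto x atTop (𝓝 x0) →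
      x0 ∈ I → (∀ n, P (a n) (x n)) → P a0 x0)
    (hex : ∀ u ∈ I, ∀ v ∈ I, ∀ a, R u < a → a < R v →
      (∃ r : ℚ, Real.log (κ a) = r * Real.log (π a)) → ∃ x, P a x) :
    ∀ u ∈ I, ∀ v ∈ I, R u = R v := by
  by_contra hcon
  push Not at hcon
  obtain ⟨u, hu, v, hv, hlt⟩ : ∃ u ∈ I, ∃ v ∈ I, R u < R v := by
    obtain ⟨u, hu, v, hv, hne⟩ := hcon
    rcases lt_or_gt_of_ne hne with h | h
    · exact ⟨u, hu, v, hv, h⟩
    · exact ⟨v, hv, u, hu, h⟩
  set ϑ : ℝ → ℝ := fun a => Real.log (κ a) / Real.log (π a) with hϑ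
  have hlogπ : ∀ a ∈ J, Real.log (π a) ≠ 0 := by
    intro a ha h0
    rcases Real.log_eq_zero.1 h0 with h | h | h
    · exact (hπ0 a ha).ne' h
    · exact hπ1 a ha h
    · have := hπ0 a ha; linarith
  have hϑc : ContinuousOn ϑ J := by
    apply ContinuousOn.div
    · exact hκc.log fun a ha => (hκ0 a ha).ne'
    · exact hπc.log fun a ha => (hπ0 a ha).ne'
    · exact hlogπ
  -- intermediate values
  have hivt : ∀ s ∈ J, ∀ t ∈ J, s < t → ∀ y, (ϑ s < y ∧ y < ϑ t) ∨ (ϑ t < y ∧ y < ϑ s) →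
      ∃ a, s < a ∧ a < t ∧ ϑ a = y := by
    intro s hs t ht hst y hy
    have hsub : Icc s t ⊆ J := hJ.out hs ht
    have hc : ContinuousOn ϑ (Icc s t) := hϑc.mono hsub
    have hy' : ∃ a ∈ Icc s t, ϑ a = y := by
      rcases hy with ⟨h1, h2⟩ | ⟨h1, h2⟩
      · exact intermediate_value_Icc hst.le hc ⟨h1.le, h2.le⟩
      · exact intermediate_value_Icc' hst.le hc ⟨h1.le, h2.le⟩
    obtain ⟨a, ha, hay⟩ := hy'
    refine ⟨a, lt_of_le_of_ne ha.1 ?_, lt_of_le_of_ne ha.2 ?_, hay⟩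
    · rintro rfl
      rcases hy with ⟨h1, h2⟩ | ⟨h1, h2⟩ <;> linarith
    · rintro rfl
      rcases hy with ⟨h1, h2⟩ | ⟨h1, h2⟩ <;> linarith
  -- an irrational type
  obtain ⟨a0, hua, hav, hirr⟩ : ∃ a0, R u < a0 ∧ a0 < R v ∧ Irrational (ϑ a0) := by
    have hne : ϑ (R u) ≠ ϑ (R v) := fun h => hlt.ne (hinj (hRJ u hu) (hRJ v hv) h)
    rcases lt_or_gt_of_ne hne with h | h
    · obtain ⟨y, hy, h1, h2⟩ := exists_irrational_btwn h
      obtain ⟨a, h3, h4, h5⟩ := hivt _ (hRJ u hu) _ (hRJ v hv) hlt y (Or.inl ⟨h1, h2⟩)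
      exact ⟨a, h3, h4, h5 ▸ hy⟩
    · obtain ⟨y, hy, h1, h2⟩ := exists_irrational_btwn h
      obtain ⟨a, h3, h4, h5⟩ := hivt _ (hRJ u hu) _ (hRJ v hv) hlt y (Or.inr ⟨h1, h2⟩)
      exact ⟨a, h3, h4, h5 ▸ hy⟩
  have ha0J : a0 ∈ J := hJ.out (hRJ u hu) (hRJ v hv) ⟨hua.le, hav.le⟩
  -- rational approximations
  have hrat : ∀ n : ℕ, ∃ a, a0 < a ∧ a < a0 + 1 / ((n : ℝ) + 1) ∧ a < R v ∧
      ∃ r : ℚ, ϑ a = r := by
    intro n
    set t := min (R v) (a0 + 1 / ((n : ℝ) + 1)) with ht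
    have h0 : (0 : ℝ) < 1 / ((n : ℝ) + 1) := by positivity
    have hat : a0 < t := lt_min hav (by linarith)
    have htJ : t ∈ J := hJ.out ha0J (hRJ v hv) ⟨hat.le, min_le_left _ _⟩
    have hne : ϑ a0 ≠ ϑ t := fun h => hat.ne (hinj ha0J htJ h)
    rcases lt_or_gt_of_ne hne with h | h
    · obtain ⟨r, h1, h2⟩ := exists_rat_btwn h
      obtain ⟨a, h3, h4, h5⟩ := hivt _ ha0J _ htJ hat r (Or.inl ⟨h1, h2⟩)
      exact ⟨a, h3, lt_of_lt_of_le h4 (min_le_right _ _), lt_of_lt_of_le h4 (min_le_left _ _),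
        r, h5⟩
    · obtain ⟨r, h1, h2⟩ := exists_rat_btwn h
      obtain ⟨a, h3, h4, h5⟩ := hivt _ ha0J _ htJ hat r (Or.inr ⟨h1, h2⟩)
      exact ⟨a, h3, lt_of_lt_of_le h4 (min_le_right _ _), lt_of_lt_of_le h4 (min_le_left _ _),
        r, h5⟩
  choose a ha1 ha2 ha3 r hr using hrat
  have haJ : ∀ n, a n ∈ J := fun n => hJ.out ha0J (hRJ v hv) ⟨(ha1 n).le, (ha3 n).le⟩
  have hlim : Tendsto a atTop (𝓝 a0) := by
    have h1 : Tendsto (fun n : ℕ => a0 + 1 / ((n : ℝ) + 1)) atTop (𝓝 (a0 + 0)) :=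
      tendsto_const_nhds.add tendsto_one_div_add_atTop_nhds_zero_nat
    rw [add_zero] at h1
    exact tendsto_of_tendsto_of_tendsto_of_le_of_le tendsto_const_nhds h1
      (fun n => (ha1 n).le) (fun n => (ha2 n).le)
  have hpure : ∀ n, ∃ x, P (a n) x := by
    intro n
    refine hex u hu v hv (a n) (hua.trans (ha1 n)) (ha3 n) ⟨r n, ?_⟩
    have := hr n
    simp only [hϑ] at this
    rw [← this]
    field_simp [hlogπ _ (haJ n)]
  -- general moves
  have hmoveZ : ∀ (b : ℝ), b ∈ J → ∀ (m : ℤ) (x : ℝ), P b x → π b ^ m * x ∈ I →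
      P b (π b ^ m * x) := by
    intro b hb m x hx hm
    have hpb := hπ0 b hb
    rcases Int.eq_nat_or_neg m with ⟨k, rfl | rfl⟩
    · have := pow_move hI hdown hpb (P := P b) (fun y hy => (hPI b y hy).1) (hPπ b) k x hx
      simp only [zpow_natCast] at hm ⊢
      exact this hm
    · have := pow_move hI hdown (inv_pos.2 hpb) (P := P b) (fun y hy => (hPI b y hy).1)
        (hPπ' b) k x hx
      simp only [zpow_neg, zpow_natCast, inv_pow] at hm this ⊢
      exact this hm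
  -- normalisation
  have hnorm : ∀ n, ∃ x, P (a n) x ∧ x ≤ u ∧ u / max (π (a n)) (π (a n))⁻¹ ≤ x := by
    intro n
    obtain ⟨x, hx⟩ := hpure n
    have hu0 := hI u hu
    have hx0 : 0 < x := hI x (hPI _ _ hx).1
    have hpb := hπ0 _ (haJ n)
    set ρ := max (π (a n)) (π (a n))⁻¹ with hρ
    have hρ1 : 1 < ρ := by
      rcases lt_or_gt_of_ne (hπ1 _ (haJ n)) with h | h
      · exact lt_of_lt_of_le ((one_lt_inv₀ hpb).2 h) (le_max_right _ _)
      · exact lt_of_lt_of_le h (le_max_left _ _)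
    have hρ0 : 0 < ρ := by linarith
    obtain ⟨k, hk1, hk2⟩ := exists_mem_Ioc_zpow (div_pos hx0 hu0) hρ1
    -- multiply by ρ ^ (-(k+1))
    obtain ⟨m, hm⟩ : ∃ m : ℤ, ρ ^ (-(k + 1)) = π (a n) ^ m := by
      rcases max_choice (π (a n)) (π (a n))⁻¹ with h | h
      · exact ⟨-(k + 1), by rw [hρ, h]⟩
      · exact ⟨(k + 1), by rw [hρ, h, inv_zpow, zpow_neg, inv_inv]⟩
    have hz : 0 < ρ ^ (k + 1) := zpow_pos hρ0 _
    have hle : ρ ^ (-(k + 1)) * x ≤ u := by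
      rw [zpow_neg, inv_mul_le_iff₀ hz]
      rw [div_le_iff₀ hu0] at hk2
      exact hk2
    have hge : u / ρ ≤ ρ ^ (-(k + 1)) * x := by
      rw [zpow_neg, div_le_iff₀ hρ0]
      rw [lt_div_iff₀ hu0] at hk1
      have e : (ρ ^ (k + 1))⁻¹ * x * ρ = (ρ ^ k)⁻¹ * x := by
        rw [zpow_add₀ hρ0.ne', zpow_one]
        field_simp
      rw [e, le_inv_mul_iff₀ (zpow_pos hρ0 _)]
      exact hk1.le
    have hpos : 0 < ρ ^ (-(k + 1)) * x := mul_pos (zpow_pos hρ0 _) hx0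
    refine ⟨ρ ^ (-(k + 1)) * x, ?_, hle, hge⟩
    have hmem : ρ ^ (-(k + 1)) * x ∈ I := hdown u hu _ hpos hle
    rw [hm] at hmem ⊢
    exact hmoveZ _ (haJ n) m x hx hmem
  choose x hx hxu hxl using hnorm
  -- compactness
  have hu0 := hI u hu
  have hπlim : Tendsto (fun n => π (a n)) atTop (𝓝 (π a0)) := by
    have := (hπc a0 ha0J).tendsto
    refine this.comp (tendsto_nhdsWithin_iff.2 ⟨hlim, Eventually.of_forall haJ⟩)
  have hρlim : Tendsto (fun n => max (π (a n)) (π (a n))⁻¹) atTop (𝓝 (max (π a0) (π a0)⁻¹)) :=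
    hπlim.max (hπlim.inv₀ (hπ0 a0 ha0J).ne')
  obtain ⟨C, hC⟩ : ∃ C, ∀ n, max (π (a n)) (π (a n))⁻¹ ≤ C := by
    obtain ⟨C, hC⟩ := hρlim.bddAbove_range
    exact ⟨C, fun n => hC ⟨n, rfl⟩⟩
  have hCpos : 0 < C := lt_of_lt_of_le (lt_of_lt_of_le (hπ0 _ (haJ 0)) (le_max_left _ _)) (hC 0)
  have hxmem : ∀ n, x n ∈ Icc (u / C) u := by
    intro n
    refine ⟨le_trans ?_ (hxl n), hxu n⟩
    have : 0 < max (π (a n)) (π (a n))⁻¹ := lt_of_lt_of_le (hπ0 _ (haJ n)) (le_max_left _ _)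
    exact div_le_div_of_nonneg_left hu0.le this (hC n)
  obtain ⟨x0, hx0, φ, hφ, hφlim⟩ := isCompact_Icc.tendsto_subseq hxmem
  have hx0pos : 0 < x0 := lt_of_lt_of_le (div_pos hu0 hCpos) hx0.1
  have hx0I : x0 ∈ I := hdown u hu x0 hx0pos hx0.2
  have hP0 : P a0 x0 := hPc (a ∘ φ) (x ∘ φ) a0 x0 (hlim.comp hφ.tendsto_atTop) hφlim hx0I
    (fun n => hx (φ n))
  -- density
  have hkey : ∀ n : ℕ, ∃ t, t ∈ I ∧ R t = a0 ∧ u - 1 / ((n : ℝ) + 1) < t ∧ t ≤ u := by
    intro n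
    have h0 : (0 : ℝ) < 1 / ((n : ℝ) + 1) := by positivity
    set s := max (u / 2) (u - 1 / ((n : ℝ) + 1)) with hs
    have hs0 : 0 < s := lt_of_lt_of_le (by linarith) (le_max_left _ _)
    have hsu : s < u := max_lt (by linarith) (by linarith)
    have hlogs : Real.log s - Real.log x0 < Real.log u - Real.log x0 := by
      have := Real.log_lt_log hs0 hsu
      linarith
    obtain ⟨k, m, hk1, hk2⟩ := dense_nat_int hirr hlogs
    have hκp := hκ0 a0 ha0J
    have hπp := hπ0 a0 ha0J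
    set t := π a0 ^ m * (κ a0 ^ k * x0) with htdef
    have ht0 : 0 < t := by positivity
    have hlogt : Real.log t = k * Real.log (κ a0) + m * Real.log (π a0) + Real.log x0 := by
      rw [htdef, Real.log_mul (by positivity) (by positivity), Real.log_mul (by positivity)
        hx0pos.ne', Real.log_zpow, Real.log_pow]
      ring
    have hst : s < t := by
      rw [← Real.log_lt_log_iff hs0 ht0, hlogt]; linarith
    have htu : t < u := by
      rw [← Real.log_lt_log_iff ht0 hu0, hlogt]; linarith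
    have htI : t ∈ I := hdown u hu t ht0 htu.le
    have hPk : ∀ k : ℕ, P a0 (κ a0 ^ k * x0) := by
      intro k
      induction k with
      | zero => simpa using hP0
      | succ k ih =>
        have := hPκ a0 _ ih
        rw [pow_succ, mul_comm (κ a0 ^ k) (κ a0), mul_assoc]
        exact this
    have hPt : P a0 t := hmoveZ a0 ha0J m _ (hPk k) htI
    exact ⟨t, htI, (hPI _ _ hPt).2, lt_of_le_of_lt (le_max_right _ _) hst, htu.le⟩
  choose t htI htR ht1 ht2 using hkey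
  have htlim : Tendsto t atTop (𝓝 u) := by
    have h1 : Tendsto (fun n : ℕ => u - 1 / ((n : ℝ) + 1)) atTop (𝓝 (u - 0)) :=
      tendsto_const_nhds.sub tendsto_one_div_add_atTop_nhds_zero_nat
    rw [sub_zero] at h1
    exact tendsto_of_tendsto_of_tendsto_of_le_of_le h1 tendsto_const_nhds
      (fun n => (ht1 n).le) (fun n => ht2 n)
  have h2 : Tendsto (fun n => R (t n)) atTop (𝓝 (R u)) := (hR u hu).tendsto.comp htlim
  simp only [htR] at h2
  have h3 := tendsto_nhds_unique h2 tendsto_const_nhds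
  linarith

end Pool.Agent.TH336.FE
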