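import Pool.Agent.TH336.FE.LC
import Pool.Agent.TH336.FE.Abs

set_option autoImplicit false

open Filter Topology Set

namespace Pool.Agent.TH336.FE

/-- The contracting situation near `0`. -/
structure Ctr (f g : ℝ → ℝ) (δ : ℝ) : Prop where
  cont : Continuous f
  zero : f 0 = 0
  hg : ∀ x, g x = x + f x
  comm : ∀ x, f (g x) = g (f x)
  δpos : 0 < δ
  neg : ∀ x, x ≠ 0 → |x| < δ → x * f x < 0
  pos : ∀ x, x ≠ 0 → |x| < δ → 0 < x * g x

namespace Ctr

variable {f g : ℝ → ℝ} {δ : ℝ}

/-- the domain -/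
def D (δ x : ℝ) : Prop := x ≠ 0 ∧ |x| < δ

lemma contg (h : Ctr f g δ) : Continuous g := by
  have : g = fun x => x + f x := funext h.hg
  rw [this]
  exact continuous_id.add h.cont

lemma g_zero (h : Ctr f g δ) : g 0 = 0 := by rw [h.hg, h.zero]; simp

lemma split (h : Ctr f g δ) {x : ℝ} (hx : D δ x) : |x| = |g x| + |f x| := by
  have h1 := h.neg x hx.1 hx.2
  have h2 := h.pos x hx.1 hx.2
  have h3 := h.hg x
  rcases lt_or_gt_of_ne hx.1 with hneg | hpos
  · have a1 : 0 < f x := by nlinarith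
    have a2 : g x < 0 := by nlinarith
    rw [abs_of_neg hneg, abs_of_pos a1, abs_of_neg a2]; linarith
  · have a1 : f x < 0 := by nlinarith
    have a2 : 0 < g x := by nlinarith
    rw [abs_of_pos hpos, abs_of_neg a1, abs_of_pos a2]; linarith

lemma f_ne (h : Ctr f g δ) {x : ℝ} (hx : D δ x) : f x ≠ 0 := by
  intro h0
  have := h.neg x hx.1 hx.2
  rw [h0] at this
  simp at this

lemma g_ne (h : Ctr f g δ) {x : ℝ} (hx : D δ x) : g x ≠ 0 := by
  intro h0
  have := h.pos x hx.1 hx.2
  rw [h0] at this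
  simp at this

lemma f_lt (h : Ctr f g δ) {x : ℝ} (hx : D δ x) : |f x| < |x| := by
  rw [h.split hx]
  have := abs_pos.2 (h.g_ne hx)
  linarith

lemma g_lt (h : Ctr f g δ) {x : ℝ} (hx : D δ x) : |g x| < |x| := by
  rw [h.split hx]
  have := abs_pos.2 (h.f_ne hx)
  linarith

lemma Df (h : Ctr f g δ) {x : ℝ} (hx : D δ x) : D δ (f x) := ⟨h.f_ne hx, (h.f_lt hx).trans hx.2⟩

lemma Dg (h : Ctr f g δ) {x : ℝ} (hx : D δ x) : D δ (g x) := ⟨h.g_ne hx, (h.g_lt hx).trans hx.2⟩

lemma Dfk (h : Ctr f g δ) (k : ℕ) {x : ℝ} (hx : D δ x) : D δ (f^[k] x) := by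
  induction k with
  | zero => exact hx
  | succ k ih => rw [Function.iterate_succ_apply']; exact h.Df ih

lemma Dgn (h : Ctr f g δ) (k : ℕ) {x : ℝ} (hx : D δ x) : D δ (g^[k] x) := by
  induction k with
  | zero => exact hx
  | succ k ih => rw [Function.iterate_succ_apply']; exact h.Dg ih

lemma fk_le (h : Ctr f g δ) (k : ℕ) {x : ℝ} (hx : D δ x) : |f^[k] x| ≤ |x| := by
  induction k with
  | zero => exact le_rfl
  | succ k ih => rw [Function.iterate_succ_apply']; exact (h.f_lt (h.Dfk k hx)).le.trans ih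

lemma gn_le (h : Ctr f g δ) (k : ℕ) {x : ℝ} (hx : D δ x) : |g^[k] x| ≤ |x| := by
  induction k with
  | zero => exact le_rfl
  | succ k ih => rw [Function.iterate_succ_apply']; exact (h.g_lt (h.Dgn k hx)).le.trans ih

lemma commute (h : Ctr f g δ) : Function.Commute f g := h.comm

lemma commI (h : Ctr f g δ) (k n : ℕ) (x : ℝ) : f^[k] (g^[n] x) = g^[n] (f^[k] x) :=
  (h.commute.iterate_iterate k n) x

lemma W_split (h : Ctr f g δ) {x : ℝ} (hx : D δ x) (k n : ℕ) :
    |f^[k] (g^[n] x)| = |f^[k] (g^[n + 1] x)| + |f^[k + 1] (g^[n] x)| := by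
  rw [Function.iterate_succ_apply' g, Function.iterate_succ_apply' f]
  have e : f^[k] (g (g^[n] x)) = g (f^[k] (g^[n] x)) := by
    have := h.commI k 1 (g^[n] x)
    simpa using this
  rw [e]
  exact h.split (h.Dfk k (h.Dgn n hx))

/-- log-convexity -/
lemma lc (h : Ctr f g δ) {x : ℝ} (hx : D δ x) : |f x| ^ 2 ≤ |x| * |f (f x)| := by
  have hG1 : |x| = |g x| + |f x| := h.split hx
  have hG2 : |f x| = |f (g x)| + |f (f x)| := by
    rw [h.comm]; exact h.split (h.Df hx)
  have hG3 : |g x| = |g (g x)| + |f (g x)| := h.split (h.Dg hx)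
  have key : ∀ M : ℕ, ((M + 2 : ℕ) : ℝ) * |g x| ^ 2
      ≤ |x| * ((((M + 2 : ℕ) : ℝ) - 1) * |g (g x)| + |g x|) := by
    intro M
    have := lcgen (M + 2) (by omega) (fun k n => |f^[k] (g^[M + 2 - k - n] x)|)
      (by
        intro k n hkn
        have h1 := h.W_split hx k (M + 2 - k - (n + 1))
        rw [show M + 2 - k - (n + 1) + 1 = M + 2 - k - n by omega] at h1
        show |f^[k] (g^[M + 2 - k - (n + 1)] x)| = |f^[k] (g^[M + 2 - k - n] x)|
          + |f^[k + 1] (g^[M + 2 - (k + 1) - n] x)|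
        rw [h1, show M + 2 - (k + 1) - n = M + 2 - k - (n + 1) by omega])
      (fun k _ => abs_nonneg _)
    simp only [Function.iterate_zero, id_eq, show M + 2 - 0 - (M + 2) = 0 by omega,
      show M + 2 - 0 - (M + 2 - 1) = 1 by omega,
      show M + 2 - 0 - (M + 2 - 2) = 2 by omega, Function.iterate_one] at this
    exact this
  have hlim : |g x| ^ 2 ≤ |x| * |g (g x)| := by
    by_contra hcon
    push Not at hcon
    set d := |g x| ^ 2 - |x| * |g (g x)| with hd
    have hdpos : 0 < d := by rw [hd]; linarith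
    set E := |x| * (|g x| - |g (g x)|) with hE
    obtain ⟨M, hM⟩ := exists_nat_gt (E / d)
    have h1 := key M
    push_cast at h1
    have h2 : E < M * d := by rwa [div_lt_iff₀ hdpos] at hM
    have h3 : ((M : ℝ) + 2) * d ≤ E := by
      rw [hd, hE]; nlinarith
    nlinarith
  have e1 : |g x| = |x| - |f x| := by linarith
  have e2 : |g (g x)| = |x| - 2 * |f x| + |f (f x)| := by linarith
  rw [e1, e2] at hlim
  nlinarith

lemma R_le_f (h : Ctr f g δ) {x : ℝ} (hx : D δ x) : |f x| / |x| ≤ |f (f x)| / |f x| := by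
  rw [div_le_div_iff₀ (abs_pos.2 hx.1) (abs_pos.2 (h.f_ne hx))]
  have := h.lc hx
  nlinarith

lemma R_g_le (h : Ctr f g δ) {x : ℝ} (hx : D δ x) : |f (g x)| / |g x| ≤ |f x| / |x| := by
  rw [div_le_div_iff₀ (abs_pos.2 (h.g_ne hx)) (abs_pos.2 hx.1)]
  have h1 := h.lc hx
  have hG1 : |x| = |g x| + |f x| := h.split hx
  have hG2 : |f x| = |f (g x)| + |f (f x)| := by
    rw [h.comm]; exact h.split (h.Df hx)
  have e1 : |g x| = |x| - |f x| := by linarith
  have e2 : |f (g x)| = |f x| - |f (f x)| := by linarith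
  rw [e1, e2]
  nlinarith

lemma R_lt_one (h : Ctr f g δ) {x : ℝ} (hx : D δ x) : |f x| / |x| < 1 := by
  rw [div_lt_one (abs_pos.2 hx.1)]
  exact h.f_lt hx

lemma R_pos (h : Ctr f g δ) {x : ℝ} (hx : D δ x) : 0 < |f x| / |x| :=
  div_pos (abs_pos.2 (h.f_ne hx)) (abs_pos.2 hx.1)

/-- purity of a point -/
def Pure (f : ℝ → ℝ) (a x : ℝ) : Prop := ∀ k : ℕ, |f^[k + 1] x| = a * |f^[k] x|

lemma pure_iter {a x : ℝ} (hp : Pure f a x) (k : ℕ) : |f^[k] x| = a ^ k * |x| := by
  induction k with
  | zero => simp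
  | succ k ih => rw [hp k, ih, pow_succ]; ring

lemma pure_f {a x : ℝ} (hp : Pure f a x) : Pure f a (f x) := by
  intro k
  have := hp (k + 1)
  rwa [Function.iterate_succ_apply, Function.iterate_succ_apply f k] at this

lemma pure_g (h : Ctr f g δ) {a x : ℝ} (hx : D δ x) (hp : Pure f a x) : Pure f a (g x) := by
  intro k
  have h1 := h.W_split hx (k + 1) 0
  have h2 := h.W_split hx k 0
  simp only [zero_add, Function.iterate_one, Function.iterate_zero, id_eq] at h1 h2
  have h3 := hp (k + 1)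
  have h4 := hp k
  have : |f^[k + 1] (g x)| = |f^[k + 1] x| - |f^[k + 1 + 1] x| := by linarith
  rw [this]
  have h5 : |f^[k] (g x)| = |f^[k] x| - |f^[k + 1] x| := by linarith
  rw [h5, h3, h4]; ring

lemma pure_absg (h : Ctr f g δ) {a x : ℝ} (hx : D δ x) (hp : Pure f a x) :
    |g x| = (1 - a) * |x| := by
  have h1 := h.split hx
  have := hp 0
  simp at this
  linarith

lemma pure_gn (h : Ctr f g δ) {a x : ℝ} (hx : D δ x) (hp : Pure f a x) (n : ℕ) :
    Pure f a (g^[n] x) ∧ |g^[n] x| = (1 - a) ^ n * |x| := by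
  induction n with
  | zero => simpa using hp
  | succ n ih =>
    rw [Function.iterate_succ_apply']
    refine ⟨pure_g h (h.Dgn n hx) ih.1, ?_⟩
    rw [pure_absg h (h.Dgn n hx) ih.1, ih.2, pow_succ]; ring

lemma ff_pos (h : Ctr f g δ) {x : ℝ} (hx : D δ x) : 0 < x * f (f x) := by
  have h1 := h.neg x hx.1 hx.2
  have h2 := h.neg (f x) (h.f_ne hx) (h.Df hx).2
  have h3 : 0 < (x * f x) * (f x * f (f x)) := mul_pos_of_neg_of_neg h1 h2
  have h4 : (x * f x) * (f x * f (f x)) = f x ^ 2 * (x * f (f x)) := by ring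
  rw [h4] at h3
  exact pos_of_mul_pos_right h3 (sq_nonneg _)

lemma f2_sign (h : Ctr f g δ) {x : ℝ} (hx : D δ x) (k : ℕ) : 0 < x * f^[2 * k] x := by
  induction k with
  | zero =>
    simp only [Nat.mul_zero, Function.iterate_zero, id_eq]
    exact mul_self_pos.2 hx.1
  | succ k ih =>
    rw [show 2 * (k + 1) = 2 * k + 1 + 1 by ring, Function.iterate_succ_apply',
      Function.iterate_succ_apply']
    have h2 := h.ff_pos (h.Dfk (2 * k) hx)
    set w := f^[2 * k] x
    have h3 : 0 < (x * w) * (w * f (f w)) := mul_pos ih h2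
    have h4 : (x * w) * (w * f (f w)) = w ^ 2 * (x * f (f w)) := by ring
    rw [h4] at h3
    exact pos_of_mul_pos_right h3 (sq_nonneg _)

lemma f2_pos (h : Ctr f g δ) {x : ℝ} (hx : D δ x) (hx0 : 0 < x) (k : ℕ) : 0 < f^[2 * k] x :=
  (pos_iff_pos_of_mul_pos (h.f2_sign hx k)).1 hx0

lemma gn_pos (h : Ctr f g δ) {x : ℝ} (hx : D δ x) (hx0 : 0 < x) (k : ℕ) : 0 < g^[k] x := by
  induction k with
  | zero => exact hx0
  | succ k ih =>
    rw [Function.iterate_succ_apply']
    exact (pos_iff_pos_of_mul_pos (h.pos _ (h.Dgn k hx).1 (h.Dgn k hx).2)).1 ih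

/-- purity propagates backwards -/
lemma pure_back (h : Ctr f g δ) {a y : ℝ} (hy : D δ y) (ha0 : 0 < a) (ha1 : a < 1)
    (hp : Pure f a (g y)) : Pure f a y := by
  set C := |g y| / (1 - a) with hC
  have ha' : 0 < 1 - a := by linarith
  have hC1 : |g y| = C * (1 - a) := by rw [hC]; field_simp
  set ε := |y| - C with hε
  have hk : ∀ k, |f^[k] y| = ε + a ^ k * C := by
    intro k
    induction k with
    | zero => simp [hε]
    | succ k ih =>
      have h1 := h.W_split hy k 0
      simp only [zero_add, Function.iterate_one, Function.iterate_zero, id_eq] at h1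
      have h2 := pure_iter hp k
      have : |f^[k + 1] y| = ε + a ^ k * C - a ^ k * (C * (1 - a)) := by
        rw [← hC1, ← h2, ← ih]; linarith
      rw [this, pow_succ]; ring
  have hlim : Tendsto (fun k : ℕ => ε + a ^ (2 * k) * C) atTop (𝓝 ε) := by
    have h1 : Tendsto (fun k : ℕ => a ^ k) atTop (𝓝 0) :=
      tendsto_pow_atTop_nhds_zero_of_lt_one ha0.le ha1
    have h2 : Tendsto (fun k : ℕ => 2 * k) atTop atTop :=
      tendsto_atTop_atTop.2 fun b => ⟨b, fun a ha => by omega⟩
    have h3 := h1.comp h2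
    have h4 : Tendsto (fun k : ℕ => ε + a ^ (2 * k) * C) atTop (𝓝 (ε + 0 * C)) :=
      tendsto_const_nhds.add (h3.mul_const C)
    simpa using h4
  have hε0 : 0 ≤ ε := ge_of_tendsto' hlim fun k => by rw [← hk]; exact abs_nonneg _
  have hεzero : ε = 0 := by
    by_contra hne
    have hεpos : 0 < ε := lt_of_le_of_ne hε0 (Ne.symm hne)
    have hCnn : 0 ≤ C := by rw [hC]; positivity
    -- the sign of y
    obtain ⟨s, hs, hsy⟩ : ∃ s : ℝ, (s = 1 ∨ s = -1) ∧ 0 < s * y := by
      rcases lt_or_gt_of_ne hy.1 with h' | h'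
      · exact ⟨-1, Or.inr rfl, by linarith⟩
      · exact ⟨1, Or.inl rfl, by linarith⟩
    have hss : s * s = 1 := by rcases hs with h | h <;> rw [h] <;> norm_num
    have hfk : ∀ k, f^[2 * k] y = s * (ε + a ^ (2 * k) * C) := by
      intro k
      have h1 := h.f2_sign hy k
      rw [← hk]
      have h2 : 0 < s * f^[2 * k] y := by
        have h3 : 0 < (s * y) * (y * f^[2 * k] y) := mul_pos hsy h1
        have h4 : (s * y) * (y * f^[2 * k] y) = y ^ 2 * (s * f^[2 * k] y) := by ring
        rw [h4] at h3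
        exact pos_of_mul_pos_right h3 (sq_nonneg _)
      have h5 : |f^[2 * k] y| = s * f^[2 * k] y := by
        have h6 : |s * f^[2 * k] y| = |f^[2 * k] y| := by
          rw [abs_mul]
          rcases hs with h | h <;> rw [h] <;> simp
        rw [← h6, abs_of_pos h2]
      rw [h5, ← mul_assoc, hss, one_mul]
    have l1 : Tendsto (fun k => f^[2 * k] y) atTop (𝓝 (s * ε)) := by
      simp only [hfk]
      exact hlim.const_mul s
    have l2 : Tendsto (fun k => |g (f^[2 * k] y)|) atTop (𝓝 |g (s * ε)|) :=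
      ((h.contg.tendsto _).comp l1).abs
    have l3 : Tendsto (fun k => |g (f^[2 * k] y)|) atTop (𝓝 0) := by
      have h1 : Tendsto (fun k : ℕ => a ^ k) atTop (𝓝 0) :=
        tendsto_pow_atTop_nhds_zero_of_lt_one ha0.le ha1
      have h2 : Tendsto (fun k : ℕ => 2 * k) atTop atTop :=
        tendsto_atTop_atTop.2 fun b => ⟨b, fun a ha => by omega⟩
      have h3 := (h1.comp h2).mul_const |g y|
      rw [zero_mul] at h3
      refine h3.congr fun k => ?_
      have e : g (f^[2 * k] y) = f^[2 * k] (g y) := by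
        have := h.commI (2 * k) 1 y
        simpa using this.symm
      rw [e, pure_iter hp]
      rfl
    have h0 := tendsto_nhds_unique l2 l3
    have hD : D δ (s * ε) := by
      refine ⟨?_, ?_⟩
      · rcases hs with h | h <;> rw [h] <;> simp [hne]
      · rw [abs_mul]
        have e1 : |s| = 1 := by rcases hs with h | h <;> rw [h] <;> simp
        rw [e1, one_mul, abs_of_pos hεpos]
        have := hy.2
        linarith
    exact h.g_ne hD (abs_eq_zero.1 h0)
  intro k
  rw [hk, hk, hεzero, pow_succ]; ring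

lemma pure_coin (h : Ctr f g δ) {x : ℝ} (hx : D δ x) {p q : ℕ} (hq : 0 < q)
    (he : f^[q] x = g^[p] x) : Pure f (|f x| / |x|) x := by
  set ρ : ℕ → ℝ := fun k => |f (f^[k] x)| / |f^[k] x| with hρ
  have hmono : Monotone ρ := by
    refine monotone_nat_of_le_succ fun k => ?_
    simp only [hρ]
    rw [Function.iterate_succ_apply']
    exact h.R_le_f (h.Dfk k hx)
  have hgn : ∀ (n : ℕ) (y : ℝ), D δ y → |f (g^[n] y)| / |g^[n] y| ≤ |f y| / |y| := by
    intro n y hy
    induction n with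
    | zero => simp
    | succ n ih =>
      rw [Function.iterate_succ_apply']
      exact (h.R_g_le (h.Dgn n hy)).trans ih
  have hper : ∀ k, ρ (k + q) ≤ ρ k := by
    intro k
    simp only [hρ]
    rw [Function.iterate_add_apply, he, h.commI]
    exact hgn p _ (h.Dfk k hx)
  have hall : ∀ k, ρ k = ρ 0 := by
    intro k
    induction k with
    | zero => rfl
    | succ k ih =>
      have h1 := hmono (show k ≤ k + 1 by omega)
      have h2 := hmono (show k + 1 ≤ k + q by omega)
      have h3 := hper k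
      linarith
  intro k
  have h1 := hall k
  simp only [hρ, Function.iterate_zero, id_eq] at h1
  rw [Function.iterate_succ_apply', ← h1]
  have := abs_pos.2 (h.Dfk k hx).1
  field_simp

lemma Phi (h : Ctr f g δ) {x : ℕ → ℝ} (hx : ∀ n, D δ (x n)) {α : ℝ}
    (hE : ∀ k, Tendsto (fun n => |f^[k] (x n)| / |x n|) atTop (𝓝 (α ^ k))) :
    ∀ j k, Tendsto (fun n => |f^[k] (g^[j] (x n))| / |x n|) atTop (𝓝 (α ^ k * (1 - α) ^ j)) := by
  intro j
  induction j with
  | zero => intro k; simpa using hE k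
  | succ j ih =>
    intro k
    have e : α ^ k * (1 - α) ^ (j + 1) = α ^ k * (1 - α) ^ j - α ^ (k + 1) * (1 - α) ^ j := by ring
    rw [e]
    refine ((ih k).sub (ih (k + 1))).congr fun n => ?_
    have := h.W_split (hx n) k j
    rw [← sub_div]
    congr 1
    linarith

/-- along `g`-orbits -/
lemma E_g (h : Ctr f g δ) {s : ℕ → ℝ} (hs : ∀ n, D δ (s n)) (hG : ∀ n, g (s n) = s (n + 1))
    {α : ℝ} (hα : Tendsto (fun n => |f (s n)| / |s n|) atTop (𝓝 α)) :
    ∀ k, Tendsto (fun n => |f^[k] (s n)| / |s n|) atTop (𝓝 (α ^ k)) := by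
  intro k
  induction k with
  | zero =>
    refine tendsto_const_nhds.congr fun n => ?_
    have := abs_pos.2 (hs n).1
    simp [this.ne']
  | succ k ih =>
    have e : α ^ (k + 1) = α ^ k - α ^ k * (1 - α) := by ring
    rw [e]
    have h1 : Tendsto (fun n => |f^[k] (s (n + 1))| / |s (n + 1)|) atTop (𝓝 (α ^ k)) :=
      (tendsto_add_atTop_iff_nat 1).2 ih
    have h2 : Tendsto (fun n => 1 - |f (s n)| / |s n|) atTop (𝓝 (1 - α)) :=
      tendsto_const_nhds.sub hα
    refine (ih.sub (h1.mul h2)).congr fun n => ?_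
    have a1 := h.W_split (hs n) k 0
    simp only [zero_add, Function.iterate_one, Function.iterate_zero, id_eq, hG] at a1
    have a2 := h.split (hs n)
    rw [hG] at a2
    have b1 := abs_pos.2 (hs n).1
    have b2 := abs_pos.2 (hs (n + 1)).1
    have a3 : 1 - |f (s n)| / |s n| = |s (n + 1)| / |s n| := by
      rw [eq_div_iff b1.ne', sub_mul, div_mul_cancel₀ _ b1.ne']; linarith
    rw [a3, a1]
    field_simp
    ring

/-- along `f`-orbits -/
lemma E_f (h : Ctr f g δ) {s : ℕ → ℝ} (hs : ∀ n, D δ (s n)) (hF : ∀ n, f (s n) = s (n + 1))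
    {β : ℝ} (hβ : Tendsto (fun n => |f (s n)| / |s n|) atTop (𝓝 β)) :
    ∀ k, Tendsto (fun n => |f^[k] (s n)| / |s n|) atTop (𝓝 (β ^ k)) := by
  intro k
  induction k with
  | zero =>
    refine tendsto_const_nhds.congr fun n => ?_
    have := abs_pos.2 (hs n).1
    simp [this.ne']
  | succ k ih =>
    have e : β ^ (k + 1) = β ^ k * β := by ring
    rw [e]
    have h1 : Tendsto (fun n => |f^[k] (s (n + 1))| / |s (n + 1)|) atTop (𝓝 (β ^ k)) :=
      (tendsto_add_atTop_iff_nat 1).2 ih
    refine (h1.mul hβ).congr fun n => ?_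
    rw [Function.iterate_succ_apply, hF]
    have b1 := abs_pos.2 (hs n).1
    have b2 := abs_pos.2 (hs (n + 1)).1
    field_simp

lemma exists_neg (h : Ctr f g δ) {u a : ℝ} (hu : D δ u) (hu0 : 0 < u) (ha1 : a < 1)
    (hua : |f u| / |u| < a) {p q : ℕ} (hq : 0 < q) (heq : a ^ (2 * q) = (1 - a) ^ p) :
    ∃ x, 0 < x ∧ x ≤ u ∧ |f^[2 * q] x| < |g^[p] x| := by
  set s : ℕ → ℝ := fun n => g^[n] u with hsdef
  have hs : ∀ n, D δ (s n) := fun n => h.Dgn n hu
  have hG : ∀ n, g (s n) = s (n + 1) := by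
    intro n; simp only [hsdef]; rw [Function.iterate_succ_apply']
  have hanti : Antitone (fun n => |f (s n)| / |s n|) := by
    refine antitone_nat_of_succ_le fun n => ?_
    have := h.R_g_le (hs n)
    rwa [hG] at this
  have hbdd : BddBelow (range (fun n => |f (s n)| / |s n|)) :=
    ⟨0, by rintro _ ⟨n, rfl⟩; positivity⟩
  have hα := tendsto_atTop_ciInf hanti hbdd
  set α := ⨅ n, |f (s n)| / |s n| with hαdef
  have hα0 : 0 ≤ α := le_ciInf fun n => by positivity
  have hαa : α < a := by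
    have := ciInf_le hbdd 0
    simp only [hsdef, Function.iterate_zero, id_eq] at this
    linarith
  have hE := h.E_g hs hG hα
  have hΦ2 := h.Phi hs hE p 0
  have hlim : α ^ (2 * q) < α ^ 0 * (1 - α) ^ p := by
    rw [pow_zero, one_mul]
    calc α ^ (2 * q) < a ^ (2 * q) := pow_lt_pow_left₀ hαa hα0 (by omega)
      _ = (1 - a) ^ p := heq
      _ ≤ (1 - α) ^ p := pow_le_pow_left₀ (by linarith) (by linarith) _
  obtain ⟨N, hN⟩ := eventually_atTop.1 ((hE (2 * q)).eventually_lt hΦ2 hlim)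
  refine ⟨s N, h.gn_pos hu hu0 N, ?_, ?_⟩
  · have := h.gn_le N hu
    rw [abs_of_pos hu0, abs_of_pos (h.gn_pos hu hu0 N)] at this
    exact this
  · have h1 := hN N le_rfl
    rw [div_lt_div_iff_of_pos_right (abs_pos.2 (hs N).1)] at h1
    simpa using h1

lemma exists_pos (h : Ctr f g δ) {v a : ℝ} (hv : D δ v) (hv0 : 0 < v) (ha0 : 0 < a)
    (hva : a < |f v| / |v|) {p q : ℕ} (hq : 0 < q) (heq : a ^ (2 * q) = (1 - a) ^ p) :
    ∃ x, 0 < x ∧ x ≤ v ∧ |g^[p] x| < |f^[2 * q] x| := by
  set s : ℕ → ℝ := fun n => f^[n] v with hsdef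
  have hs : ∀ n, D δ (s n) := fun n => h.Dfk n hv
  have hF : ∀ n, f (s n) = s (n + 1) := by
    intro n; simp only [hsdef]; rw [Function.iterate_succ_apply']
  have hmono : Monotone (fun n => |f (s n)| / |s n|) := by
    refine monotone_nat_of_le_succ fun n => ?_
    have := h.R_le_f (hs n)
    simp only [hF] at this ⊢
    exact this
  have hbdd : BddAbove (range (fun n => |f (s n)| / |s n|)) :=
    ⟨1, by rintro _ ⟨n, rfl⟩; exact (h.R_lt_one (hs n)).le⟩
  have hβ := tendsto_atTop_ciSup hmono hbdd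
  set β := ⨆ n, |f (s n)| / |s n| with hβdef
  have hβ1 : β ≤ 1 := ciSup_le fun n => (h.R_lt_one (hs n)).le
  have hβa : a < β := by
    have := le_ciSup hbdd 0
    simp only [hsdef, Function.iterate_zero, id_eq] at this
    linarith
  have hE := h.E_f hs hF hβ
  have hΦ2 := h.Phi hs hE p 0
  have hlim : β ^ 0 * (1 - β) ^ p < β ^ (2 * q) := by
    rw [pow_zero, one_mul]
    calc (1 - β) ^ p ≤ (1 - a) ^ p := pow_le_pow_left₀ (by linarith) (by linarith) _
      _ = a ^ (2 * q) := heq.symm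
      _ < β ^ (2 * q) := pow_lt_pow_left₀ hβa ha0.le (by omega)
  obtain ⟨N, hN⟩ := eventually_atTop.1 (hΦ2.eventually_lt (hE (2 * q)) hlim)
  refine ⟨s (2 * N), h.f2_pos hv hv0 N, ?_, ?_⟩
  · have := h.fk_le (2 * N) hv
    rw [abs_of_pos hv0, abs_of_pos (h.f2_pos hv hv0 N)] at this
    exact this
  · have h1 := hN (2 * N) (by omega)
    rw [div_lt_div_iff_of_pos_right (abs_pos.2 (hs (2 * N)).1)] at h1
    simpa using h1

lemma theta_inj : Set.InjOn (fun a : ℝ => Real.log (a ^ 2) / Real.log (1 - a)) (Ioo 0 1) := by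
  have key : ∀ a b : ℝ, 0 < a → a < b → b < 1 →
      Real.log (a ^ 2) / Real.log (1 - a) ≠ Real.log (b ^ 2) / Real.log (1 - b) := by
    intro a b ha hab hb1 heq
    have hb : 0 < b := ha.trans hab
    simp only [Real.log_pow] at heq
    push_cast at heq
    have la : Real.log (1 - a) < 0 := Real.log_neg (by linarith) (by linarith)
    have lb : Real.log (1 - b) < 0 := Real.log_neg (by linarith) (by linarith)
    have l1 : Real.log (1 - b) < Real.log (1 - a) := Real.log_lt_log (by linarith) (by linarith)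
    have l2 : Real.log a < Real.log b := Real.log_lt_log ha hab
    have l3 : Real.log b < 0 := Real.log_neg hb hb1
    rw [div_eq_div_iff la.ne lb.ne] at heq
    nlinarith
  intro a ha b hb heq
  rcases lt_trichotomy a b with h | h | h
  · exact absurd heq (key a b ha.1 h hb.2)
  · exact h
  · exact absurd heq.symm (key b a hb.1 h ha.2)

/-- The contracting theorem: `f` is linear on the right of `0`. -/
theorem linear (h : Ctr f g δ) :
    ∃ a c : ℝ, 0 < a ∧ a < 1 ∧ 0 < c ∧ ∀ x, 0 < x → x < c → f x = -a * x := by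
  set R : ℝ → ℝ := fun x => |f x| / |x| with hRdef
  set δ1 := δ / 2 with hδ1
  have hδp := h.δpos
  have hDδ1 : D δ δ1 := ⟨by rw [hδ1]; positivity, by rw [abs_of_pos (by rw [hδ1]; positivity)]; linarith⟩
  have hδ1p : 0 < δ1 := by rw [hδ1]; positivity
  set c := g δ1 with hc
  have hc0 : 0 < c := (pos_iff_pos_of_mul_pos (h.pos _ hDδ1.1 hDδ1.2)).1 hδ1p
  have hcδ1 : c < δ1 := by
    have := h.g_lt hDδ1
    rwa [abs_of_pos hδ1p, abs_of_pos hc0] at this
  have hDx : ∀ x, 0 < x → x ≤ δ1 → D δ x := fun x hx hx' =>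
    ⟨hx.ne', by rw [abs_of_pos hx]; linarith⟩
  have hDI : ∀ x, x ∈ Ioo 0 c → D δ x := fun x hx => hDx x hx.1 (by linarith [hx.2])
  have hconst := abstract_const (Ioo 0 c) (fun x hx => hx.1)
    (fun x hx y hy hyx => ⟨hy, lt_of_le_of_lt hyx hx.2⟩) R
    (by
      intro x hx
      exact (h.cont.continuousAt.abs).div continuousAt_id.abs (abs_ne_zero.2 (ne_of_gt hx.1)))
    (Ioo 0 1) ordConnected_Ioo
    (fun x hx => ⟨h.R_pos (hDI x hx), h.R_lt_one (hDI x hx)⟩)
    (fun a => a ^ 2) (fun a => 1 - a)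
    (by fun_prop) (by fun_prop)
    (by intro a ha; have := ha.1; positivity)
    (by intro a ha; have := ha.2; show 0 < 1 - a; linarith)
    (by intro a ha; have := ha.1; show 1 - a ≠ 1; linarith)
    theta_inj
    (fun a x => x ∈ Ioo 0 c ∧ a ∈ Ioo (0 : ℝ) 1 ∧ Pure f a x)
    (by
      rintro a x ⟨hx, _, hp⟩
      refine ⟨hx, ?_⟩
      have := hp 0
      simp only [zero_add, Function.iterate_one, Function.iterate_zero, id_eq] at this
      simp only [hRdef]
      rw [this]
      have := hx.1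
      field_simp)
    (by
      rintro a x ⟨hx, ha, hp⟩
      have hD := hDI x hx
      have hpos : 0 < f (f x) := (pos_iff_pos_of_mul_pos (h.ff_pos hD)).1 hx.1
      have h1 : f (f x) = a ^ 2 * x := by
        have e' : |f (f x)| = a ^ 2 * |x| := pure_iter hp 2
        rwa [abs_of_pos hpos, abs_of_pos hx.1] at e'
      have hlt : f (f x) < c := by
        have := h.fk_le 2 hD
        rw [abs_of_pos hx.1] at this
        have e : f^[2] x = f (f x) := rfl
        rw [e, abs_of_pos hpos] at this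
        linarith [hx.2]
      show a ^ 2 * x ∈ Ioo 0 c ∧ a ∈ Ioo (0 : ℝ) 1 ∧ Pure f a (a ^ 2 * x)
      rw [← h1]
      exact ⟨⟨hpos, hlt⟩, ha, pure_f (pure_f hp)⟩)
    (by
      rintro a x ⟨hx, ha, hp⟩ hmem
      have hD := hDI x hx
      have hpos : 0 < g x := (pos_iff_pos_of_mul_pos (h.pos _ hD.1 hD.2)).1 hx.1
      have h1 : g x = (1 - a) * x := by
        have e' := pure_absg h hD hp
        rwa [abs_of_pos hpos, abs_of_pos hx.1] at e'
      have hmem' : (1 - a) * x ∈ Ioo 0 c := hmem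
      show (1 - a) * x ∈ Ioo 0 c ∧ a ∈ Ioo (0 : ℝ) 1 ∧ Pure f a ((1 - a) * x)
      rw [← h1] at hmem' ⊢
      exact ⟨hmem', ha, pure_g h hD hp⟩)
    (by
      rintro a x ⟨hx, ha, hp⟩ hmem
      obtain ⟨y, hy, hyx⟩ : ∃ y ∈ Icc 0 δ1, g y = x := by
        have := intermediate_value_Icc hδ1p.le (h.contg.continuousOn (s := Icc 0 δ1))
        exact this ⟨by rw [h.g_zero]; exact hx.1.le, hx.2.le⟩
      have hy0 : 0 < y := by
        rcases hy.1.eq_or_lt with h0 | h0
        · rw [← h0, h.g_zero] at hyx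
          exact absurd hyx hx.1.ne
        · exact h0
      have hDy := hDx y hy0 hy.2
      have hpy : Pure f a y := pure_back h hDy ha.1 ha.2 (by rw [hyx]; exact hp)
      have h1 : x = (1 - a) * y := by
        have e' := pure_absg h hDy hpy
        rwa [hyx, abs_of_pos hx.1, abs_of_pos hy0] at e'
      have hne : 1 - a ≠ 0 := by have := ha.2; intro h0; linarith
      have h2 : (1 - a)⁻¹ * x = y := by rw [h1, inv_mul_cancel_left₀ hne]
      have hmem' : (1 - a)⁻¹ * x ∈ Ioo 0 c := hmem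
      show (1 - a)⁻¹ * x ∈ Ioo 0 c ∧ a ∈ Ioo (0 : ℝ) 1 ∧ Pure f a ((1 - a)⁻¹ * x)
      rw [h2] at hmem' ⊢
      exact ⟨hmem', ha, hpy⟩)
    (by
      rintro a x a0 x0 ha hx hx0 hP
      have hp : Pure f a0 x0 := by
        intro k
        have c1 : Continuous fun y => |f^[k + 1] y| := (h.cont.iterate _).abs
        have c2 : Continuous fun y => |f^[k] y| := (h.cont.iterate _).abs
        have l1 := (c1.tendsto x0).comp hx
        have l2 := ha.mul ((c2.tendsto x0).comp hx)
        refine tendsto_nhds_unique l1 (l2.congr fun n => ?_)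
        simp only [Function.comp]
        exact ((hP n).2.2 k).symm
      refine ⟨hx0, ?_, hp⟩
      have e : a0 = |f x0| / |x0| := by
        have := hp 0
        simp only [zero_add, Function.iterate_one, Function.iterate_zero, id_eq] at this
        rw [this]
        have := hx0.1
        field_simp
      rw [e]
      exact ⟨h.R_pos (hDI x0 hx0), h.R_lt_one (hDI x0 hx0)⟩)
    (by
      rintro u hu v hv a hua hav ⟨r, hr⟩
      have hDu := hDI u hu
      have hDv := hDI v hv
      have ha0 : 0 < a := lt_trans (h.R_pos hDu) hua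
      have ha1 : a < 1 := lt_trans hav (h.R_lt_one hDv)
      simp only [Real.log_pow] at hr
      push_cast at hr
      have la : Real.log a < 0 := Real.log_neg ha0 ha1
      have lb : Real.log (1 - a) < 0 := Real.log_neg (by linarith) (by linarith)
      have hr0 : 0 < (r : ℝ) := by
        by_contra hc
        push Not at hc
        nlinarith
      have hrnum : 0 < r.num := by
        have : 0 < r := by exact_mod_cast hr0
        exact Rat.num_pos.2 this
      set q := r.den with hq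
      set p := r.num.toNat with hp
      have hpm : (p : ℤ) = r.num := by omega
      have hlog : 2 * (q : ℝ) * Real.log a = p * Real.log (1 - a) := by
        have h2 : (r : ℝ) = (r.num : ℝ) / (r.den : ℝ) := by
          exact_mod_cast (Rat.num_div_den r).symm
        have hd : (0 : ℝ) < q := by exact_mod_cast r.den_pos
        have h3 : (p : ℝ) = (r.num : ℝ) := by exact_mod_cast hpm
        have h4 : (q : ℝ) * r = p := by
          rw [h2, ← hq, h3]; field_simp
        rw [← h4]
        linear_combination (q : ℝ) * hr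
      have heq : a ^ (2 * q) = (1 - a) ^ p := by
        have h1a : 0 < 1 - a := by linarith
        apply Real.log_injOn_pos (mem_Ioi.2 (by positivity)) (mem_Ioi.2 (by positivity))
        rw [Real.log_pow, Real.log_pow]
        push_cast
        linarith
      obtain ⟨x1, hx1, hx1u, hlt1⟩ := h.exists_neg hDu hu.1 ha1 hua r.den_pos heq
      obtain ⟨x2, hx2, hx2v, hlt2⟩ := h.exists_pos hDv hv.1 ha0 hav r.den_pos heq
      have hx1I : x1 ∈ Ioo 0 c := ⟨hx1, lt_of_le_of_lt hx1u hu.2⟩
      have hx2I : x2 ∈ Ioo 0 c := ⟨hx2, lt_of_le_of_lt hx2v hv.2⟩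
      have hposl : ∀ x, x ∈ Ioo 0 c → |f^[2 * q] x| = f^[2 * q] x := fun x hx =>
        abs_of_pos (h.f2_pos (hDI x hx) hx.1 q)
      have hposr : ∀ x, x ∈ Ioo 0 c → |g^[p] x| = g^[p] x := fun x hx =>
        abs_of_pos (h.gn_pos (hDI x hx) hx.1 p)
      rw [hposl _ hx1I, hposr _ hx1I] at hlt1
      rw [hposl _ hx2I, hposr _ hx2I] at hlt2
      obtain ⟨x0, hx0, he⟩ := isPreconnected_Ioo.intermediate_value₂ hx1I hx2I
        (f := fun x => f^[2 * q] x) (g := fun x => g^[p] x)
        (h.cont.iterate _).continuousOn (h.contg.iterate _).continuousOn hlt1.le hlt2.le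
      have he : f^[2 * q] x0 = g^[p] x0 := he
      have hD0 := hDI x0 hx0
      have hpure := h.pure_coin hD0 (show 0 < 2 * q by have := r.den_pos; omega) he
      set b := |f x0| / |x0| with hb
      have hb0 : 0 < b := h.R_pos hD0
      have hb1 : b < 1 := h.R_lt_one hD0
      refine ⟨x0, hx0, ?_⟩
      have hbeq : b ^ (2 * q) = (1 - b) ^ p := by
        have e2 := pure_iter hpure (2 * q)
        have e3 := (pure_gn h hD0 hpure p).2
        rw [he, e3] at e2
        have hx0a : |x0| ≠ 0 := abs_ne_zero.2 hD0.1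
        exact (mul_right_cancel₀ hx0a e2).symm
      have hmono : ∀ s t : ℝ, 0 < s → s < t → t < 1 → s ^ (2 * q) = (1 - s) ^ p →
          t ^ (2 * q) = (1 - t) ^ p → False := by
        intro s t hs hst ht e1 e2
        have a1 : s ^ (2 * q) < t ^ (2 * q) :=
          pow_lt_pow_left₀ hst hs.le (by have := r.den_pos; omega)
        have a2 : (1 - t) ^ p ≤ (1 - s) ^ p := pow_le_pow_left₀ (by linarith) (by linarith) _
        linarith
      have hab : b = a := by
        rcases lt_trichotomy b a with hlt | h' | hlt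
        · exact absurd (hmono b a hb0 hlt ha1 hbeq heq) id
        · exact h'
        · exact absurd (hmono a b ha0 hlt hb1 heq hbeq) id
      rw [← hab]
      exact ⟨⟨hb0, hb1⟩, hpure⟩)
  have hmid : c / 2 ∈ Ioo 0 c := ⟨by linarith, by linarith⟩
  refine ⟨R (c / 2), c, h.R_pos (hDI _ hmid), h.R_lt_one (hDI _ hmid), hc0, fun x hx hxc => ?_⟩
  have h1 := hconst x ⟨hx, hxc⟩ (c / 2) hmid
  have hD := hDI x ⟨hx, hxc⟩
  have h2 : |f x| = R (c / 2) * x := by
    rw [← h1]
    simp only [hRdef]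
    rw [abs_of_pos hx]
    field_simp
  have h3 := h.neg x hD.1 hD.2
  have h4 : f x < 0 := by nlinarith
  rw [abs_of_neg h4] at h2
  linarith

end Ctr

end Pool.Agent.TH336.FE
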