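import Mathlib

set_option autoImplicit false

namespace Pool.Agent.TH336.FE

/-- Newton type expansion of a two-index array satisfying a Pascal recursion in a triangle. -/
lemma newton (N : ℕ) (A : ℕ → ℕ → ℝ)
    (h : ∀ k n, k + n < N → A k (n + 1) = A k n + A (k + 1) n) :
    ∀ n k, k + n ≤ N → A k n = ∑ i ∈ Finset.range (n + 1), (n.choose i : ℝ) * A (k + i) 0 := by
  intro n
  induction n with
  | zero => intro k _; simp
  | succ n ih =>
    intro k hk
    rw [h k n (by omega), ih k (by omega), ih (k + 1) (by omega)]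
    rw [Finset.sum_range_succ' _ (n + 1)]
    rw [Finset.sum_range_succ' _ n]
    have e1 : ∀ i, ((n + 1).choose (i + 1) : ℝ) * A (k + (i + 1)) 0
        = (n.choose i : ℝ) * A (k + 1 + i) 0 + (n.choose (i + 1) : ℝ) * A (k + (i + 1)) 0 := by
      intro i
      rw [Nat.choose_succ_succ]
      push_cast
      rw [show k + (i + 1) = k + 1 + i by ring]
      ring
    simp only [e1]
    rw [Finset.sum_add_distrib]
    have e2 : ∑ i ∈ Finset.range (n + 1), (n.choose (i + 1) : ℝ) * A (k + (i + 1)) 0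
        = ∑ i ∈ Finset.range n, (n.choose (i + 1) : ℝ) * A (k + (i + 1)) 0 := by
      rw [Finset.sum_range_succ]
      simp
    rw [e2]
    simp
    ring

/-- The basic Cauchy-Schwarz estimate. -/
lemma lcgen (N : ℕ) (hN : 2 ≤ N) (A : ℕ → ℕ → ℝ)
    (h : ∀ k n, k + n < N → A k (n + 1) = A k n + A (k + 1) n)
    (h0 : ∀ k, k ≤ N → 0 ≤ A k 0) :
    (N : ℝ) * A 0 (N - 1) ^ 2 ≤ A 0 N * (((N : ℝ) - 1) * A 0 (N - 2) + A 0 (N - 1)) := by
  obtain ⟨M, rfl⟩ : ∃ M, N = M + 2 := ⟨N - 2, by omega⟩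
  have hN' : M + 2 - 1 = M + 1 := by omega
  have hN'' : M + 2 - 2 = M := by omega
  rw [hN', hN'']
  set e : ℕ → ℝ := fun i => A i 0 with he
  have z2 : A 0 (M + 2) = ∑ i ∈ Finset.range (M + 3), ((M + 2).choose i : ℝ) * e i := by
    rw [newton (M + 2) A h (M + 2) 0 (by omega)]
    simp [he]
  have z1 : ((M : ℝ) + 2) * A 0 (M + 1)
      = ∑ i ∈ Finset.range (M + 3), ((M + 2).choose i : ℝ) * e i * ((M : ℝ) + 2 - i) := by
    rw [newton (M + 2) A h (M + 1) 0 (by omega), Finset.sum_range_succ _ (M + 2), Finset.mul_sum]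
    have : ((M + 2).choose (M + 2) : ℝ) * e (M + 2) * ((M : ℝ) + 2 - (M + 2 : ℕ)) = 0 := by
      push_cast; ring
    rw [this, add_zero]
    refine Finset.sum_congr rfl fun i hi => ?_
    have hi' : i ≤ M + 1 := by simpa [Nat.lt_succ_iff] using hi
    have key : ((M + 2 : ℕ) : ℝ) * ((M + 1).choose i : ℝ)
        = ((M + 2).choose i : ℝ) * ((M + 2 - i : ℕ) : ℝ) := by
      have h4 : (M + 1).choose i * (M + 2) = (M + 2).choose i * (M + 2 - i) := by
        simpa using Nat.choose_mul_succ_eq (M + 1) i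
      have h5 : (((M + 1).choose i * (M + 2) : ℕ) : ℝ) = (((M + 2).choose i * (M + 2 - i) : ℕ) : ℝ) := by
        exact_mod_cast h4
      push_cast at h5 ⊢
      linarith
    have hc : ((M + 2 - i : ℕ) : ℝ) = (M : ℝ) + 2 - i := by
      rw [Nat.cast_sub (by omega)]; push_cast; ring
    rw [hc] at key
    push_cast at key
    simp only [zero_add]
    show ((M : ℝ) + 2) * (((M + 1).choose i : ℝ) * e i) = _
    linear_combination (e i) * key
  have z0 : ((M : ℝ) + 2) * (((M : ℝ) + 1) * A 0 M)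
      = ∑ i ∈ Finset.range (M + 3),
        ((M + 2).choose i : ℝ) * e i * (((M : ℝ) + 2 - i) * ((M : ℝ) + 2 - i - 1)) := by
    rw [newton (M + 2) A h M 0 (by omega), Finset.sum_range_succ _ (M + 2),
      Finset.sum_range_succ _ (M + 1), Finset.mul_sum, Finset.mul_sum]
    have t1 : ((M + 2).choose (M + 2) : ℝ) * e (M + 2)
        * (((M : ℝ) + 2 - (M + 2 : ℕ)) * ((M : ℝ) + 2 - (M + 2 : ℕ) - 1)) = 0 := by
      push_cast; ring
    have t2 : ((M + 2).choose (M + 1) : ℝ) * e (M + 1)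
        * (((M : ℝ) + 2 - (M + 1 : ℕ)) * ((M : ℝ) + 2 - (M + 1 : ℕ) - 1)) = 0 := by
      push_cast; ring
    rw [t1, t2, add_zero, add_zero]
    refine Finset.sum_congr rfl fun i hi => ?_
    have hi' : i ≤ M := by simpa [Nat.lt_succ_iff] using hi
    have h4 : (M + 1).choose i * (M + 2) = (M + 2).choose i * (M + 2 - i) := by
      simpa using Nat.choose_mul_succ_eq (M + 1) i
    have h5 : M.choose i * (M + 1) = (M + 1).choose i * (M + 1 - i) := by
      simpa using Nat.choose_mul_succ_eq M i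
    have h4' : ((M + 1).choose i : ℝ) * ((M : ℝ) + 2) = ((M + 2).choose i : ℝ) * ((M : ℝ) + 2 - i) := by
      have := congrArg (Nat.cast : ℕ → ℝ) h4
      rw [Nat.cast_mul, Nat.cast_mul, Nat.cast_sub (by omega)] at this
      push_cast at this
      linarith
    have h5' : (M.choose i : ℝ) * ((M : ℝ) + 1) = ((M + 1).choose i : ℝ) * ((M : ℝ) + 1 - i) := by
      have := congrArg (Nat.cast : ℕ → ℝ) h5
      rw [Nat.cast_mul, Nat.cast_mul, Nat.cast_sub (by omega)] at this
      push_cast at this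
      linarith
    simp only [zero_add]
    show ((M : ℝ) + 2) * (((M : ℝ) + 1) * ((M.choose i : ℝ) * e i)) = _
    linear_combination (e i) * ((M : ℝ) + 2) * h5' + e i * ((M : ℝ) + 1 - i) * h4'
  set lam : ℕ → ℝ := fun i => ((M + 2).choose i : ℝ) * e i with hlam
  have hlam0 : ∀ i ∈ Finset.range (M + 3), 0 ≤ lam i := by
    intro i hi
    have : i ≤ M + 2 := by simpa [Nat.lt_succ_iff] using hi
    exact mul_nonneg (by positivity) (h0 i this)
  set S0 := A 0 (M + 2) with hS0
  set S1 := ((M : ℝ) + 2) * A 0 (M + 1) with hS1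
  have S2 : ∑ i ∈ Finset.range (M + 3), lam i * ((M : ℝ) + 2 - i) ^ 2
      = ((M : ℝ) + 2) * (((M : ℝ) + 1) * A 0 M) + S1 := by
    rw [z0, z1, ← Finset.sum_add_distrib]
    refine Finset.sum_congr rfl fun i _ => ?_
    simp only [hlam]
    ring
  have hcs : S1 ^ 2 ≤ S0 * (((M : ℝ) + 2) * (((M : ℝ) + 1) * A 0 M) + S1) := by
    rw [← S2]
    have hquad : ∀ t : ℝ, 0 ≤ (∑ i ∈ Finset.range (M + 3), lam i * ((M : ℝ) + 2 - i) ^ 2)
        - 2 * t * S1 + t ^ 2 * S0 := by
      intro t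
      have : 0 ≤ ∑ i ∈ Finset.range (M + 3), lam i * (((M : ℝ) + 2 - i) - t) ^ 2 :=
        Finset.sum_nonneg fun i hi => mul_nonneg (hlam0 i hi) (sq_nonneg _)
      have e3 : ∑ i ∈ Finset.range (M + 3), lam i * (((M : ℝ) + 2 - i) - t) ^ 2
          = (∑ i ∈ Finset.range (M + 3), lam i * ((M : ℝ) + 2 - i) ^ 2)
          - 2 * t * S1 + t ^ 2 * S0 := by
        rw [z1, z2, Finset.mul_sum, Finset.mul_sum, ← Finset.sum_sub_distrib,
          ← Finset.sum_add_distrib]
        refine Finset.sum_congr rfl fun i _ => ?_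
        simp only [hlam]
        ring
      rw [e3] at this
      exact this
    have hS0nn : 0 ≤ S0 := by
      rw [z2]
      exact Finset.sum_nonneg hlam0
    rcases hS0nn.eq_or_lt with h00 | hpos
    · rw [← h00]
      have hz : ∀ i ∈ Finset.range (M + 3), lam i = 0 := by
        rw [h00.symm] at z2
        exact (Finset.sum_eq_zero_iff_of_nonneg hlam0).1 z2.symm
      have : S1 = 0 := by
        rw [z1]
        refine Finset.sum_eq_zero fun i hi => ?_
        have := hz i hi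
        simp only [hlam] at this
        rw [this]; ring
      rw [this]; simp
    · have := hquad (S1 / S0)
      have h6 : 0 ≤ S0 * ((∑ i ∈ Finset.range (M + 3), lam i * ((M : ℝ) + 2 - i) ^ 2)
        - 2 * (S1 / S0) * S1 + (S1 / S0) ^ 2 * S0) := mul_nonneg hpos.le this
      have h7 : S0 * ((∑ i ∈ Finset.range (M + 3), lam i * ((M : ℝ) + 2 - i) ^ 2)
        - 2 * (S1 / S0) * S1 + (S1 / S0) ^ 2 * S0)
        = S0 * (∑ i ∈ Finset.range (M + 3), lam i * ((M : ℝ) + 2 - i) ^ 2) - S1 ^ 2 := by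
        field_simp
        ring
      linarith
  push_cast
  rw [hS1] at hcs
  have hMpos : (0 : ℝ) < (M : ℝ) + 2 := by positivity
  have h8 : ((M : ℝ) + 2) * (((M : ℝ) + 2) * A 0 (M + 1) ^ 2)
      ≤ ((M : ℝ) + 2) * (S0 * (((M : ℝ) + 2 - 1) * A 0 M + A 0 (M + 1))) := by
    nlinarith [hcs]
  exact le_of_mul_le_mul_left h8 hMpos

end Pool.Agent.TH336.FE
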