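import Pool.Agent.TH336.FE.Out2
import Pool.Agent.TH336.FE.In

set_option autoImplicit false

open Filter Topology Set

namespace Pool.Agent.TH336.FE

/-- continuous solutions of the functional equation -/
structure Sol (f : ℝ → ℝ) : Prop where
  cont : Continuous f
  eqn : ∀ x, f (x + f x) = f x + f (f x)

/-- the mirror image of a solution -/
def mir (f : ℝ → ℝ) (x : ℝ) : ℝ := -f (-x)

lemma mir_mir (f : ℝ → ℝ) : mir (mir f) = f := by
  funext x; simp [mir]

/-- positive near `0` on the right -/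
def RP (f : ℝ → ℝ) : Prop := ∃ δ > 0, ∀ x, 0 < x → x < δ → 0 < f x
/-- negative near `0` on the right -/
def RN (f : ℝ → ℝ) : Prop := ∃ δ > 0, ∀ x, 0 < x → x < δ → f x < 0
/-- zeros accumulate at `0` on the right -/
def RZ (f : ℝ → ℝ) : Prop := ∀ δ > 0, ∃ x, 0 < x ∧ x < δ ∧ f x = 0

lemma const_sign {f : ℝ → ℝ} (hf : Continuous f) {δ : ℝ}
    (h : ∀ x, 0 < x → x < δ → f x ≠ 0) :
    (∀ x, 0 < x → x < δ → 0 < f x) ∨ (∀ x, 0 < x → x < δ → f x < 0) := by
  by_contra hcon
  push Not at hcon
  obtain ⟨⟨x, hx0, hxδ, hx⟩, ⟨y, hy0, hyδ, hy⟩⟩ := hcon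
  obtain ⟨z, hz, he⟩ := (isPreconnected_Ioo (a := (0:ℝ)) (b := δ)).intermediate_value₂
    ⟨hx0, hxδ⟩ ⟨hy0, hyδ⟩ hf.continuousOn (continuous_const (y := (0:ℝ))).continuousOn hx hy
  exact h z hz.1 hz.2 he

lemma tri {f : ℝ → ℝ} (hf : Continuous f) : RP f ∨ RN f ∨ RZ f := by
  by_cases h : RZ f
  · exact Or.inr (Or.inr h)
  · unfold RZ at h
    push Not at h
    obtain ⟨δ, hδ, h⟩ := h
    rcases const_sign hf h with h' | h'
    · exact Or.inl ⟨δ, hδ, h'⟩
    · exact Or.inr (Or.inl ⟨δ, hδ, h'⟩)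

/-- the last zero before a point of positivity -/
lemma last_zero {φ : ℝ → ℝ} (hφ : Continuous φ) (h0 : φ 0 = 0) {x0 : ℝ} (hx0 : 0 < x0)
    (hpos : 0 < φ x0) : ∃ α, 0 ≤ α ∧ α < x0 ∧ φ α = 0 ∧ ∀ x, α < x → x ≤ x0 → 0 < φ x := by
  set S := Icc 0 x0 ∩ φ ⁻¹' {0} with hS
  have hSc : IsClosed S := isClosed_Icc.inter (isClosed_singleton.preimage hφ)
  have hSne : S.Nonempty := ⟨0, ⟨le_rfl, hx0.le⟩, h0⟩
  have hSb : BddAbove S := ⟨x0, fun x hx => hx.1.2⟩
  have hmem := hSc.csSup_mem hSne hSb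
  set α := sSup S with hα
  have hα0 : φ α = 0 := hmem.2
  have hαx : α < x0 := by
    rcases hmem.1.2.eq_or_lt with h | h
    · rw [h] at hα0; rw [hα0] at hpos; exact absurd hpos (lt_irrefl _)
    · exact h
  refine ⟨α, hmem.1.1, hαx, hα0, fun x hx hx' => ?_⟩
  by_contra hcon
  push Not at hcon
  obtain ⟨z, hz, he⟩ := (isPreconnected_Icc (a := x) (b := x0)).intermediate_value₂
    ⟨le_rfl, hx'⟩ ⟨hx', le_rfl⟩ hφ.continuousOn (continuous_const (y := (0:ℝ))).continuousOn
    hcon hpos.le
  have hzS : z ∈ S := ⟨⟨by linarith [hz.1, hmem.1.1], hz.2⟩, he⟩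
  have := le_csSup hSb hzS
  linarith [hz.1]

lemma zero_of_approx {φ : ℝ → ℝ} (hφ : Continuous φ) {y : ℝ}
    (h : ∀ ε > 0, ∃ z, |z - y| < ε ∧ |φ z| < ε) : φ y = 0 := by
  by_contra hne
  have hpos : 0 < |φ y| / 2 := by positivity
  obtain ⟨δ, hδ, hδ'⟩ := Metric.continuous_iff.1 hφ y _ hpos
  obtain ⟨z, hz1, hz2⟩ := h (min δ (|φ y| / 2)) (lt_min hδ hpos)
  have h1 := hδ' z (by rw [Real.dist_eq]; exact lt_of_lt_of_le hz1 (min_le_left _ _))
  rw [Real.dist_eq] at h1
  have h2 := lt_of_lt_of_le hz2 (min_le_right _ _)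
  have h3 : |φ y| ≤ |φ z| + |φ z - φ y| := by
    have := abs_sub_abs_le_abs_sub (φ y) (φ z)
    rw [abs_sub_comm] at this
    linarith
  linarith

lemma reach {x y c : ℝ} (hc : 0 < c) (hxy : x ≤ y) : ∃ n : ℕ, |x + n * c - y| < c := by
  refine ⟨⌊(y - x) / c⌋₊, ?_⟩
  have h0 : 0 ≤ (y - x) / c := div_nonneg (by linarith) hc.le
  have h1 := Nat.floor_le h0
  have h2 := Nat.lt_floor_add_one ((y - x) / c)
  rw [le_div_iff₀ hc] at h1
  rw [div_lt_iff₀ hc] at h2
  rw [abs_lt]
  constructor <;> nlinarith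

namespace Sol

variable {f : ℝ → ℝ}

lemma zero (h : Sol f) : f 0 = 0 := by
  have := h.eqn 0
  rw [zero_add] at this
  linarith

lemma mir (h : Sol f) : Sol (mir f) := by
  refine ⟨(h.cont.comp continuous_neg).neg, fun x => ?_⟩
  simp only [FE.mir]
  have := h.eqn (-x)
  rw [neg_add, neg_neg, this]
  ring

lemma step (h : Sol f) {x c : ℝ} (hc : f c = 0) (hx : f x = c) (n : ℕ) : f (x + n * c) = c := by
  induction n with
  | zero => simpa using hx
  | succ n ih =>
    have := h.eqn (x + n * c)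
    rw [ih, hc] at this
    push_cast
    rw [show x + ((n : ℝ) + 1) * c = x + n * c + c by ring, this]
    ring

/-- sign persistence -/
lemma persist (h : Sol f) (hp : RP f) : ∀ x, 0 < x → 0 < f x := by
  obtain ⟨δ, hδ, hδf⟩ := hp
  by_contra hcon
  push Not at hcon
  obtain ⟨x0, hx0, hfx0⟩ := hcon
  -- the first zero
  set S := Ici δ ∩ f ⁻¹' {0} with hS
  have hSc : IsClosed S := isClosed_Ici.inter (isClosed_singleton.preimage h.cont)
  have hzero : ∀ x, 0 < x → f x ≤ 0 → ∃ z ∈ S, z ≤ x := by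
    intro x hx hfx
    have hxδ : δ ≤ x := by
      by_contra hlt
      push Not at hlt
      linarith [hδf x hx hlt]
    obtain ⟨z, hz, he⟩ := (isPreconnected_Icc (a := δ / 2) (b := x)).intermediate_value₂
      ⟨by linarith, le_rfl⟩ ⟨le_rfl, by linarith⟩ h.cont.continuousOn
      (continuous_const (y := (0:ℝ))).continuousOn hfx (hδf (δ / 2) (by linarith) (by linarith)).le
    refine ⟨z, ⟨?_, he⟩, hz.2⟩
    by_contra hlt
    simp only [mem_Ici, not_le] at hlt
    have := hδf z (by linarith [hz.1]) hlt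
    rw [he] at this
    exact lt_irrefl _ this
  obtain ⟨z0, hz0, _⟩ := hzero x0 hx0 hfx0
  have hSne : S.Nonempty := ⟨z0, hz0⟩
  have hSb : BddBelow S := ⟨δ, fun x hx => hx.1⟩
  have hmem := hSc.csInf_mem hSne hSb
  set β := sInf S with hβ
  have hβδ : δ ≤ β := hmem.1
  have hβ0 : 0 < β := by linarith
  have hfβ : f β = 0 := hmem.2
  have hpos : ∀ x, 0 < x → x < β → 0 < f x := by
    intro x hx hxβ
    by_contra hle
    push Not at hle
    obtain ⟨z, hz, hzx⟩ := hzero x hx hle
    have := csInf_le hSb hz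
    linarith
  set g : ℝ → ℝ := fun x => x + f x with hg
  have hgc : Continuous g := continuous_id.add h.cont
  have hgb : ∀ x, 0 < x → x < β → 0 < g x ∧ g x < β := by
    intro x hx hxβ
    have h1 := hpos x hx hxβ
    refine ⟨by simp only [hg]; linarith, ?_⟩
    by_contra hle
    push Not at hle
    obtain ⟨x1, hx1, he⟩ := (isPreconnected_Icc (a := (0:ℝ)) (b := x)).intermediate_value₂
      ⟨le_rfl, hx.le⟩ ⟨hx.le, le_rfl⟩ hgc.continuousOn
      (continuous_const (y := β)).continuousOn (by simp only [hg]; rw [h.zero]; linarith) hle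
    have he : x1 + f x1 = β := he
    have hx1pos : 0 < x1 := by
      rcases hx1.1.eq_or_lt with h0 | h0
      · rw [← h0, h.zero] at he; linarith
      · exact h0
    have hx1β : x1 < β := by linarith [hx1.2]
    have h2 := h.eqn x1
    rw [he, hfβ] at h2
    have h3 := hpos x1 hx1pos hx1β
    have h4 := hpos (f x1) h3 (by linarith)
    linarith
  -- orbits
  have horb : ∀ x, 0 < x → x < β → Tendsto (fun n => g^[n] x) atTop (𝓝 β) := by
    intro x hx hxβ
    have hin : ∀ n, 0 < g^[n] x ∧ g^[n] x < β := by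
      intro n
      induction n with
      | zero => exact ⟨hx, hxβ⟩
      | succ n ih => rw [Function.iterate_succ_apply']; exact hgb _ ih.1 ih.2
    have hmono : Monotone (fun n => g^[n] x) := by
      refine monotone_nat_of_le_succ fun n => ?_
      show g^[n] x ≤ g^[n + 1] x
      rw [Function.iterate_succ_apply']
      have := hpos _ (hin n).1 (hin n).2
      simp only [hg] at this ⊢
      linarith
    have hbdd : BddAbove (range fun n => g^[n] x) := ⟨β, by rintro _ ⟨n, rfl⟩; exact (hin n).2.le⟩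
    have hlim := tendsto_atTop_ciSup hmono hbdd
    set L := ⨆ n, g^[n] x with hL
    have hLβ : L ≤ β := ciSup_le fun n => (hin n).2.le
    have hL0 : 0 < L := lt_of_lt_of_le hx (le_ciSup hbdd 0)
    have hfix : g L = L := by
      have h1 : Tendsto (fun n => g^[n + 1] x) atTop (𝓝 L) := (tendsto_add_atTop_iff_nat 1).2 hlim
      have h2 : Tendsto (fun n => g (g^[n] x)) atTop (𝓝 (g L)) := (hgc.tendsto L).comp hlim
      refine tendsto_nhds_unique h2 (h1.congr fun n => ?_)
      rw [Function.iterate_succ_apply']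
    have : L = β := by
      rcases hLβ.eq_or_lt with h' | h'
      · exact h'
      · have := hpos L hL0 h'
        simp only [hg] at hfix
        linarith
    rwa [this] at hlim
  have hcomm : ∀ n x, f (g^[n] x) = g^[n] (f x) := by
    intro n
    have hc : Function.Commute f g := h.eqn
    intro x
    exact (hc.iterate_right n) x
  have hm0 : 0 < β / 2 := by linarith
  have hm1 : β / 2 < β := by linarith
  have hu := hpos _ hm0 hm1
  have hu2 : f (β / 2) < β := by
    have := (hgb _ hm0 hm1).2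
    simp only [hg] at this
    linarith
  have l1 := horb _ hu hu2
  have l2 := (h.cont.tendsto β).comp (horb _ hm0 hm1)
  rw [hfβ] at l2
  have l3 : Tendsto (fun n => g^[n] (f (β / 2))) atTop (𝓝 0) :=
    l2.congr fun n => hcomm n _
  have := tendsto_nhds_unique l1 l3
  linarith

/-- a solution which is positive on the right of zero is linear on the right -/
lemma right_linear (h : Sol f) (hp : RP f) : ∃ a : ℝ, 0 < a ∧ ∀ x, 0 ≤ x → f x = a * x := by
  have hpos := h.persist hp
  set F : ℝ → ℝ := fun x => if 0 ≤ x then f x else -f (-x) with hF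
  have hFp : ∀ x, 0 ≤ x → F x = f x := fun x hx => by simp only [hF]; rw [if_pos hx]
  have hFn : ∀ x, x < 0 → F x = -f (-x) := fun x hx => by
    simp only [hF]; rw [if_neg (not_le.2 hx)]
  have hE : Expd 1 F (fun x => 1 * x + F x) := by
    refine ⟨Or.inl rfl, ?_, ?_, fun x => rfl, ?_, ?_⟩
    · refine Continuous.if_le h.cont (h.cont.comp continuous_neg).neg continuous_const
        continuous_id ?_
      intro x hx
      rw [← hx, neg_zero, h.zero, neg_zero]
    · rw [hFp 0 le_rfl, h.zero]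
    · intro x hx
      rcases lt_or_gt_of_ne hx with h' | h'
      · rw [hFn x h']
        have := hpos (-x) (by linarith)
        nlinarith
      · rw [hFp x h'.le]
        have := hpos x h'
        nlinarith
    · intro x
      simp only [one_mul]
      rcases le_or_gt 0 x with h' | h'
      · have h1 : 0 ≤ f x := by
          rcases h'.eq_or_lt with h0 | h0
          · rw [← h0, h.zero]
          · exact (hpos x h0).le
        rw [hFp x h', hFp (x + f x) (by linarith), hFp (f x) h1]
        exact h.eqn x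
      · have h1 : 0 < f (-x) := hpos (-x) (by linarith)
        rw [hFn x h', hFn (x + -f (-x)) (by linarith), hFn (-f (-x)) (by linarith)]
        have := h.eqn (-x)
        rw [neg_neg, show -(x + -f (-x)) = -x + f (-x) by ring, this]
        ring
  obtain ⟨c, hc, hlin⟩ := hE.linear
  refine ⟨c, hc, fun x hx => ?_⟩
  rcases hx.eq_or_lt with h0 | h0
  · rw [← h0, h.zero]; ring
  · have := hlin x h0
    rw [hFp x hx] at this
    rw [this]; ring

/-- zeros accumulating on the right -/
lemma nonpos_of_RZ (h : Sol f) (hz : RZ f) : ∀ x, 0 < x → f x ≤ 0 := by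
  by_contra hcon
  push Not at hcon
  obtain ⟨x0, hx0, hfx0⟩ := hcon
  obtain ⟨α, hα0, hαx, hfα, hαpos⟩ := last_zero h.cont h.zero hx0 hfx0
  have : f x0 = 0 := by
    refine zero_of_approx h.cont fun ε hε => ?_
    set x1 := min x0 (α + ε / 2) with hx1
    have hx1α : α < x1 := lt_min hαx (by linarith)
    have hfx1 := hαpos x1 hx1α (min_le_left _ _)
    obtain ⟨c, hc0, hc1, hfc⟩ := hz (min (ε / 2) (f x1)) (lt_min (by linarith) hfx1)
    have hc2 : c < ε / 2 := lt_of_lt_of_le hc1 (min_le_left _ _)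
    have hc3 : c < f x1 := lt_of_lt_of_le hc1 (min_le_right _ _)
    obtain ⟨x, hx, he⟩ := (isPreconnected_Icc (a := α) (b := x1)).intermediate_value₂
      ⟨le_rfl, hx1α.le⟩ ⟨hx1α.le, le_rfl⟩ h.cont.continuousOn
      (continuous_const (y := c)).continuousOn (by rw [hfα]; exact hc0.le) hc3.le
    have he : f x = c := he
    have hxx0 : x ≤ x0 := hx.2.trans (min_le_left _ _)
    obtain ⟨n, hn⟩ := reach hc0 hxx0
    refine ⟨x + n * c, by linarith, ?_⟩
    rw [h.step hfc he n, abs_of_pos hc0]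
    linarith
  linarith

/-- zeros accumulating on the left -/
lemma nonneg_of_LZ (h : Sol f) (hz : RZ (FE.mir f)) : ∀ x, 0 < x → 0 ≤ f x := by
  by_contra hcon
  push Not at hcon
  obtain ⟨x0, hx0, hfx0⟩ := hcon
  obtain ⟨α, hα0, hαx, hfα, hαpos⟩ := last_zero (φ := fun x => -f x) h.cont.neg
    (by simp only [h.zero, neg_zero]) hx0 (by show 0 < -f x0; linarith)
  have hfα : -f α = 0 := hfα
  have hαpos : ∀ x, α < x → x ≤ x0 → 0 < -f x := hαpos
  have hzero : ∀ y, y ≤ α → f y = 0 := by
    intro y hy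
    refine zero_of_approx h.cont fun ε hε => ?_
    set x1 := min x0 (α + ε / 2) with hx1
    have hx1α : α < x1 := lt_min hαx (by linarith)
    have hfx1 := hαpos x1 hx1α (min_le_left _ _)
    obtain ⟨c, hc0, hc1, hfc⟩ := hz (min (ε / 2) (-f x1)) (lt_min (by linarith) hfx1)
    have hfc : f (-c) = 0 := by simp only [FE.mir] at hfc; linarith
    have hc2 : c < ε / 2 := lt_of_lt_of_le hc1 (min_le_left _ _)
    have hc3 : c < -f x1 := lt_of_lt_of_le hc1 (min_le_right _ _)
    obtain ⟨x, hx, he⟩ := (isPreconnected_Icc (a := α) (b := x1)).intermediate_value₂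
      ⟨hx1α.le, le_rfl⟩ ⟨le_rfl, hx1α.le⟩ h.cont.continuousOn
      (continuous_const (y := -c)).continuousOn (by linarith) (by linarith)
    have he : f x = -c := he
    obtain ⟨n, hn⟩ := reach (x := -x) (y := -y) hc0 (by linarith [hx.1])
    refine ⟨x + n * (-c), ?_, ?_⟩
    · have e : x + n * (-c) - y = -(-x + n * c - -y) := by ring
      rw [e, abs_neg]
      linarith
    · rw [h.step hfc he n, abs_neg, abs_of_pos hc0]
      linarith
  set c := -f x0 with hc
  have hc0 : 0 < c := by rw [hc]; linarith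
  have hfc : f (-c) = 0 := hzero _ (by linarith)
  have he : f x0 = -c := by rw [hc]; ring
  obtain ⟨n, hn⟩ := exists_nat_gt ((x0 - α) / c)
  rw [div_lt_iff₀ hc0] at hn
  have h1 := h.step hfc he n
  rw [hzero _ (by nlinarith)] at h1
  linarith

/-- linear with positive slope on the right implies nonpositive on the left -/
lemma left_nonpos (h : Sol f) {a : ℝ} (ha : 0 < a) (hlin : ∀ x, 0 ≤ x → f x = a * x) :
    ∀ x, x < 0 → f x ≤ 0 := by
  by_contra hcon
  push Not at hcon
  obtain ⟨x0, hx0, hfx0⟩ := hcon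
  set c := f x0 with hc
  have key : ∀ n : ℕ, f (x0 + c * ((1 + a) ^ n - 1) / a) = (1 + a) ^ n * c := by
    intro n
    induction n with
    | zero => simp [hc]
    | succ n ih =>
      have h1 := h.eqn (x0 + c * ((1 + a) ^ n - 1) / a)
      have h2 : f ((1 + a) ^ n * c) = a * ((1 + a) ^ n * c) := hlin _ (by positivity)
      rw [ih, h2] at h1
      have e : x0 + c * ((1 + a) ^ (n + 1) - 1) / a
          = x0 + c * ((1 + a) ^ n - 1) / a + (1 + a) ^ n * c := by
        field_simp
        ring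
      rw [e, h1, pow_succ]
      ring
  have hlim : Tendsto (fun n : ℕ => (1 + a) ^ n) atTop atTop :=
    tendsto_pow_atTop_atTop_of_one_lt (by linarith)
  obtain ⟨n, hn⟩ := (hlim.eventually_ge_atTop (1 + a * (-x0) / c)).exists
  have h1 : 0 ≤ x0 + c * ((1 + a) ^ n - 1) / a := by
    have h2 : a * (-x0) / c ≤ (1 + a) ^ n - 1 := by linarith
    rw [div_le_iff₀ hfx0] at h2
    have h3 : -x0 ≤ c * ((1 + a) ^ n - 1) / a := by
      rw [le_div_iff₀ ha]; linarith
    linarith
  have h2 := key n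
  rw [hlin _ h1] at h2
  have h3 : a * (x0 + c * ((1 + a) ^ n - 1) / a) = a * x0 + c * ((1 + a) ^ n - 1) := by
    field_simp
  rw [h3] at h2
  nlinarith

end Sol

end Pool.Agent.TH336.FE
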