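import Pool.Agent.TH336.FE.LC
import Pool.Agent.TH336.FE.Abs

set_option autoImplicit false

open Filter Topology Set

namespace Pool.Agent.TH336.FE

/-- Log-convex positive sequences satisfying a recursion of Pascal type are geometric. -/
lemma coin (c : ℕ → ℝ) (hc : ∀ k, 0 < c k) (hlc : ∀ k, c (k + 1) ^ 2 ≤ c k * c (k + 2))
    (p q m : ℕ) (hpq : p < q)
    (hrec : ∀ k, ∑ i ∈ Finset.range (m + 1), (m.choose i : ℝ) * c (k + q + i)
      = ∑ i ∈ Finset.range (p + 1), (p.choose i : ℝ) * c (k + i)) :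
    ∀ k, c (k + 1) = c 1 / c 0 * c k := by
  set ρ : ℕ → ℝ := fun k => c (k + 1) / c k with hρ
  have hmono : Monotone ρ := by
    refine monotone_nat_of_le_succ fun k => ?_
    simp only [hρ]
    rw [div_le_div_iff₀ (hc k) (hc (k + 1))]
    nlinarith [hlc k]
  have hterm : ∀ k i j, i ≤ j → c (k + j) * c (k + 1 + i) ≤ c (k + i) * c (k + 1 + j) := by
    intro k i j hij
    have := hmono (show k + i ≤ k + j by omega)
    simp only [hρ] at this
    rw [div_le_div_iff₀ (hc _) (hc _)] at this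
    rw [show k + i + 1 = k + 1 + i by ring, show k + j + 1 = k + 1 + j by ring] at this
    linarith
  have hL : ∀ k, ∀ i ∈ Finset.range (p + 1),
      (p.choose i : ℝ) * (c (k + 1 + i) / c (k + 1 + q))
        ≤ (p.choose i : ℝ) * (c (k + i) / c (k + q)) := by
    intro k i hi
    have hi' : i ≤ p := by simpa [Nat.lt_succ_iff] using hi
    refine mul_le_mul_of_nonneg_left ?_ (by positivity)
    rw [div_le_div_iff₀ (hc _) (hc _)]
    have := hterm k i q (by omega)
    linarith
  have hR : ∀ k, ∀ i ∈ Finset.range (m + 1),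
      (m.choose i : ℝ) * (c (k + q + i) / c (k + q))
        ≤ (m.choose i : ℝ) * (c (k + 1 + q + i) / c (k + 1 + q)) := by
    intro k i _
    refine mul_le_mul_of_nonneg_left ?_ (by positivity)
    rw [div_le_div_iff₀ (hc _) (hc _)]
    have := hterm k q (q + i) (by omega)
    rw [show k + q + i = k + (q + i) by ring, show k + 1 + q + i = k + 1 + (q + i) by ring]
    linarith
  have hEq : ∀ k, ∑ i ∈ Finset.range (m + 1), (m.choose i : ℝ) * (c (k + q + i) / c (k + q))
      = ∑ i ∈ Finset.range (p + 1), (p.choose i : ℝ) * (c (k + i) / c (k + q)) := by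
    intro k
    have h1 := congrArg (fun t => t / c (k + q)) (hrec k)
    simp only [Finset.sum_div] at h1
    simpa only [mul_div_assoc] using h1
  have hfix : ∀ k, c (k + 1) / c (k + 1 + q) = c k / c (k + q) := by
    intro k
    have h1 := Finset.sum_le_sum (hL k)
    have h2 := Finset.sum_le_sum (hR k)
    have h3 := hEq k
    have h4 := hEq (k + 1)
    have h5 : ∑ i ∈ Finset.range (p + 1), (p.choose i : ℝ) * (c (k + 1 + i) / c (k + 1 + q))
        = ∑ i ∈ Finset.range (p + 1), (p.choose i : ℝ) * (c (k + i) / c (k + q)) := by linarith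
    have h6 := (Finset.sum_eq_sum_iff_of_le (hL k)).1 h5 0 (by simp)
    simpa using h6
  have hρq : ∀ k, ρ k = ρ (k + q) := by
    intro k
    have h1 := hfix k
    have a1 := hc k
    have a2 := hc (k + 1)
    have a3 := hc (k + q)
    have a4 := hc (k + 1 + q)
    simp only [hρ]
    rw [show k + q + 1 = k + 1 + q by ring]
    rw [div_eq_div_iff a4.ne' a3.ne'] at h1
    rw [div_eq_div_iff a1.ne' a3.ne']
    linarith
  have hconst : ∀ k, ρ (k + 1) = ρ k := by
    intro k
    have h1 := hmono (show k ≤ k + 1 by omega)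
    have h2 := hmono (show k + 1 ≤ k + q by omega)
    have h3 := hρq k
    exact le_antisymm (by linarith) h1
  have hall : ∀ k, ρ k = ρ 0 := by
    intro k
    induction k with
    | zero => rfl
    | succ k ih => rw [hconst k, ih]
  intro k
  have h1 := hall k
  simp only [hρ, zero_add] at h1
  rw [← h1]
  field_simp [(hc k).ne']

/-- The expanding situation: `G x = σ x + F x` commutes with `F`, with a fixed sign pattern. -/
structure Expd (σ : ℝ) (F G : ℝ → ℝ) : Prop where
  hσ : σ = 1 ∨ σ = -1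
  cont : Continuous F
  zero : F 0 = 0
  hG : ∀ x, G x = σ * x + F x
  pos : ∀ x, x ≠ 0 → 0 < σ * x * F x
  comm : ∀ x, F (G x) = G (F x)

namespace Expd

variable {σ : ℝ} {F G : ℝ → ℝ}

lemma contG (h : Expd σ F G) : Continuous G := by
  have : G = fun x => σ * x + F x := funext h.hG
  rw [this]
  exact (continuous_const.mul continuous_id).add h.cont

lemma G_zero (h : Expd σ F G) : G 0 = 0 := by rw [h.hG, h.zero]; simp

lemma σσ (h : Expd σ F G) : σ * σ = 1 := by
  rcases h.hσ with h | h <;> rw [h] <;> norm_num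

lemma F_ne (h : Expd σ F G) {x : ℝ} (hx : x ≠ 0) : F x ≠ 0 := by
  intro h0
  have := h.pos x hx
  rw [h0] at this
  simp at this

lemma absG (h : Expd σ F G) (x : ℝ) : |G x| = |x| + |F x| := by
  rcases eq_or_ne x 0 with rfl | hx
  · rw [h.G_zero, h.zero]; simp
  have hp := h.pos x hx
  rw [h.hG]
  have h1 : |σ * x| = |x| := by
    rcases h.hσ with h | h <;> rw [h] <;> simp
  rw [← h1]
  rcases pos_and_pos_or_neg_and_neg_of_mul_pos hp with ⟨a, b⟩ | ⟨a, b⟩
  · rw [abs_of_pos a, abs_of_pos b, abs_of_pos (by linarith)]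
  · rw [abs_of_neg a, abs_of_neg b, abs_of_neg (by linarith)]; ring

lemma G_ne (h : Expd σ F G) {x : ℝ} (hx : x ≠ 0) : G x ≠ 0 := by
  intro h0
  have h1 := h.absG x
  rw [h0, abs_zero] at h1
  have := abs_pos.2 hx
  have := abs_nonneg (F x)
  linarith

lemma commute (h : Expd σ F G) : Function.Commute F G := h.comm

lemma commI (h : Expd σ F G) (k n : ℕ) (x : ℝ) : F^[k] (G^[n] x) = G^[n] (F^[k] x) :=
  (h.commute.iterate_iterate k n) x

lemma Fk_ne (h : Expd σ F G) (k : ℕ) {x : ℝ} (hx : x ≠ 0) : F^[k] x ≠ 0 := by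
  induction k with
  | zero => exact hx
  | succ k ih => rw [Function.iterate_succ_apply']; exact h.F_ne ih

lemma Gn_ne (h : Expd σ F G) (n : ℕ) {x : ℝ} (hx : x ≠ 0) : G^[n] x ≠ 0 := by
  induction n with
  | zero => exact hx
  | succ k ih => rw [Function.iterate_succ_apply']; exact h.G_ne ih

lemma A_succ (h : Expd σ F G) (x : ℝ) (k n : ℕ) :
    |F^[k] (G^[n + 1] x)| = |F^[k] (G^[n] x)| + |F^[k + 1] (G^[n] x)| := by
  rw [Function.iterate_succ_apply' G, Function.iterate_succ_apply' F, ← h.absG]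
  congr 1
  have := h.commI k 1 (G^[n] x)
  simpa using this

lemma surj (h : Expd σ F G) {x : ℝ} (hx : x ≠ 0) : ∃ y, y ≠ 0 ∧ G y = x := by
  have hp := h.pos (σ * x) (by
    rcases h.hσ with h | h <;> rw [h] <;> simpa using hx)
  have hG1 : G (σ * x) = x + F (σ * x) := by
    rw [h.hG, ← mul_assoc, h.σσ, one_mul]
  have hp' : 0 < x * F (σ * x) := by
    rw [← mul_assoc, h.σσ, one_mul] at hp; exact hp
  have hmem : x ∈ G '' (uIcc 0 (σ * x)) := by
    have h1 := intermediate_value_uIcc (h.contG.continuousOn (s := uIcc 0 (σ * x)))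
    apply h1
    rw [h.G_zero, hG1, mem_uIcc]
    rcases pos_and_pos_or_neg_and_neg_of_mul_pos hp' with ⟨a, b⟩ | ⟨a, b⟩
    · left; constructor <;> linarith
    · right; constructor <;> linarith
  obtain ⟨y, _, hy⟩ := hmem
  refine ⟨y, ?_, hy⟩
  rintro rfl
  rw [h.G_zero] at hy
  exact hx hy.symm

lemma surjN (h : Expd σ F G) (M : ℕ) {x : ℝ} (hx : x ≠ 0) : ∃ y, y ≠ 0 ∧ G^[M] y = x := by
  induction M with
  | zero => exact ⟨x, hx, rfl⟩
  | succ M ih =>
    obtain ⟨y, hy, hyx⟩ := ih
    obtain ⟨z, hz, hzy⟩ := h.surj hy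
    exact ⟨z, hz, by rw [Function.iterate_succ_apply, hzy, hyx]⟩

/-- log-convexity -/
lemma lc (h : Expd σ F G) {x : ℝ} (hx : x ≠ 0) : |F x| ^ 2 ≤ |x| * |F (F x)| := by
  have hG1 : |G x| = |x| + |F x| := h.absG x
  have hG2 : |G (G x)| = |x| + 2 * |F x| + |F (F x)| := by
    rw [h.absG (G x), hG1, h.comm, h.absG (F x)]; ring
  have key : ∀ M : ℕ, ((M + 2 : ℕ) : ℝ) * |G x| ^ 2
      ≤ |G (G x)| * ((((M + 2 : ℕ) : ℝ) - 1) * |x| + |G x|) := by
    intro M
    obtain ⟨y, hy, hyx⟩ := h.surjN M hx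
    have := lcgen (M + 2) (by omega) (fun k n => |F^[k] (G^[n] y)|)
      (fun k n _ => h.A_succ y k n) (fun k _ => abs_nonneg _)
    simp only [Function.iterate_zero, id_eq, show M + 2 - 1 = M + 1 by omega,
      show M + 2 - 2 = M by omega] at this
    rw [Function.iterate_succ_apply' G (M + 1), Function.iterate_succ_apply' G M, hyx] at this
    exact this
  have hlim : |G x| ^ 2 ≤ |G (G x)| * |x| := by
    by_contra hcon
    push Not at hcon
    set d := |G x| ^ 2 - |G (G x)| * |x| with hd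
    have hdpos : 0 < d := by rw [hd]; linarith
    set E := |G (G x)| * (|G x| - |x|) with hE
    obtain ⟨M, hM⟩ := exists_nat_gt (E / d)
    have h1 := key M
    push_cast at h1
    have h2 : E < M * d := by rwa [div_lt_iff₀ hdpos] at hM
    have h3 : ((M : ℝ) + 2) * d ≤ E := by
      rw [hd, hE]; nlinarith
    nlinarith
  rw [hG1, hG2] at hlim
  nlinarith

/-- purity of a point -/
def Pure (F : ℝ → ℝ) (a x : ℝ) : Prop := ∀ k : ℕ, |F^[k + 1] x| = a * |F^[k] x|

lemma Pure.iter {a x : ℝ} (hp : Pure F a x) (k : ℕ) : |F^[k] x| = a ^ k * |x| := by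
  induction k with
  | zero => simp
  | succ k ih => rw [hp k, ih, pow_succ]; ring

lemma pureF {a x : ℝ} (hp : Pure F a x) : Pure F a (F x) := by
  intro k
  have := hp (k + 1)
  rwa [Function.iterate_succ_apply, Function.iterate_succ_apply F k] at this

lemma pureG (h : Expd σ F G) {a x : ℝ} (hp : Pure F a x) : Pure F a (G x) := by
  intro k
  have h1 := h.A_succ x (k + 1) 0
  have h2 := h.A_succ x k 0
  simp only [zero_add, Function.iterate_one, Function.iterate_zero, id_eq] at h1 h2
  rw [h1, h2, hp (k + 1), hp k]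
  ring

lemma pure_absG (h : Expd σ F G) {a x : ℝ} (hp : Pure F a x) : |G x| = (1 + a) * |x| := by
  rw [h.absG]
  have := hp 0
  simp at this
  rw [this]; ring

lemma pureGn (h : Expd σ F G) {a x : ℝ} (hp : Pure F a x) (n : ℕ) :
    Pure F a (G^[n] x) ∧ |G^[n] x| = (1 + a) ^ n * |x| := by
  induction n with
  | zero => simpa using hp
  | succ n ih =>
    rw [Function.iterate_succ_apply']
    refine ⟨pureG h ih.1, ?_⟩
    rw [pure_absG h ih.1, ih.2, pow_succ]; ring

/-- purity propagates backwards -/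
lemma pure_back (h : Expd σ F G) {a y : ℝ} (hy : y ≠ 0) (hp : Pure F a (G y)) : Pure F a y := by
  intro k
  set w := F^[k] y with hw
  have hw0 : w ≠ 0 := h.Fk_ne k hy
  have e1 : F^[k] (G y) = G w := by simpa using h.commI k 1 y
  have hq : ∀ v, v ≠ 0 → 0 ≤ |F (F v)| - 2 * a * |F v| + a ^ 2 * |v| := by
    intro v hv
    have h1 := h.lc hv
    have h2 := abs_pos.2 hv
    have h3 : 0 ≤ |v| * (|F (F v)| - 2 * a * |F v| + a ^ 2 * |v|) := by
      nlinarith [sq_nonneg (|F v| - a * |v|)]
    exact nonneg_of_mul_nonneg_right h3 h2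
  have h1 : |F (G w)| = a * |G w| := by
    have := hp k
    rw [Function.iterate_succ_apply', e1] at this
    exact this
  have h2 : |F (F (G w))| = a * |F (G w)| := by
    have := hp (k + 1)
    rw [Function.iterate_succ_apply', Function.iterate_succ_apply', e1] at this
    exact this
  have g0 := h.absG w
  have g1 : |F (G w)| = |F w| + |F (F w)| := by rw [h.comm]; exact h.absG (F w)
  have g2 : |F (F (G w))| = |F (F w)| + |F (F (F w))| := by
    rw [h.comm, h.comm]; exact h.absG (F (F w))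
  have q1 := hq w hw0
  have q2 := hq (F w) (h.F_ne hw0)
  have hqG : |F (F (G w))| - 2 * a * |F (G w)| + a ^ 2 * |G w| = 0 := by
    rw [h2, h1]; ring
  have hsum : |F (F (G w))| - 2 * a * |F (G w)| + a ^ 2 * |G w|
      = (|F (F w)| - 2 * a * |F w| + a ^ 2 * |w|)
        + (|F (F (F w))| - 2 * a * |F (F w)| + a ^ 2 * |F w|) := by
    rw [g0, g1, g2]; ring
  have hz : |F (F w)| - 2 * a * |F w| + a ^ 2 * |w| = 0 := by
    linarith
  have h3 := h.lc hw0
  have h4 : (|F w| - a * |w|) ^ 2 ≤ 0 := by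
    nlinarith [abs_nonneg w]
  have h5 : |F w| - a * |w| = 0 := by
    have := sq_nonneg (|F w| - a * |w|)
    exact pow_eq_zero_iff (two_ne_zero) |>.1 (le_antisymm h4 this)
  rw [Function.iterate_succ_apply']
  linarith

lemma Pure_coin (h : Expd σ F G) {x : ℝ} (hx : x ≠ 0) {p q m : ℕ} (hpq : p < q)
    (he : F^[q] (G^[m] x) = G^[p] x) : Pure F (|F x| / |x|) x := by
  have hc : ∀ k, 0 < |F^[k] x| := fun k => abs_pos.2 (h.Fk_ne k hx)
  have hlc : ∀ k, |F^[k + 1] x| ^ 2 ≤ |F^[k] x| * |F^[k + 2] x| := by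
    intro k
    have := h.lc (h.Fk_ne k hx)
    rw [Function.iterate_succ_apply' F (k + 1), Function.iterate_succ_apply' F k]
    exact this
  have hrec : ∀ k, ∑ i ∈ Finset.range (m + 1), (m.choose i : ℝ) * |F^[k + q + i] x|
      = ∑ i ∈ Finset.range (p + 1), (p.choose i : ℝ) * |F^[k + i] x| := by
    intro k
    have n1 := newton (m + (k + q)) (fun k n => |F^[k] (G^[n] x)|)
      (fun k n _ => h.A_succ x k n) m (k + q) (by omega)
    have n2 := newton (p + k) (fun k n => |F^[k] (G^[n] x)|)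
      (fun k n _ => h.A_succ x k n) p k (by omega)
    simp only [Function.iterate_zero, id_eq] at n1 n2
    rw [← n1, ← n2, Function.iterate_add_apply, he]
  have := coin (fun k => |F^[k] x|) hc hlc p q m hpq hrec
  intro k
  have h1 := this k
  simpa using h1

end Expd

end Pool.Agent.TH336.FE
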