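import Pool.Agent.TH336.FE.Out

set_option autoImplicit false

open Filter Topology Set

namespace Pool.Agent.TH336.FE

lemma mono_aux {s t : ℝ} (hs : 0 ≤ s) (hst : s < t) {p q : ℕ} (m : ℕ) (hpq : p < q) :
    s ^ (2 * q) * (1 + s) ^ (2 * m) * (1 + t) ^ (2 * p)
      < t ^ (2 * q) * (1 + t) ^ (2 * m) * (1 + s) ^ (2 * p) := by
  obtain ⟨r, rfl⟩ : ∃ r, q = p + 1 + r := ⟨q - (p + 1), by omega⟩
  have ht : 0 < t := by linarith
  have e1 : s ^ (2 * (p + 1 + r)) * (1 + s) ^ (2 * m) * (1 + t) ^ (2 * p)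
      = (s * (1 + t)) ^ (2 * p) * (s ^ (2 * (1 + r)) * (1 + s) ^ (2 * m)) := by
    rw [mul_pow, show 2 * (p + 1 + r) = 2 * p + 2 * (1 + r) by ring, pow_add]; ring
  have e2 : t ^ (2 * (p + 1 + r)) * (1 + t) ^ (2 * m) * (1 + s) ^ (2 * p)
      = (t * (1 + s)) ^ (2 * p) * (t ^ (2 * (1 + r)) * (1 + t) ^ (2 * m)) := by
    rw [mul_pow, show 2 * (p + 1 + r) = 2 * p + 2 * (1 + r) by ring, pow_add]; ring
  rw [e1, e2]
  have h1 : (s * (1 + t)) ^ (2 * p) ≤ (t * (1 + s)) ^ (2 * p) :=
    pow_le_pow_left₀ (by positivity) (by nlinarith) _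
  have h2 : s ^ (2 * (1 + r)) * (1 + s) ^ (2 * m) < t ^ (2 * (1 + r)) * (1 + t) ^ (2 * m) := by
    have a1 : s ^ (2 * (1 + r)) < t ^ (2 * (1 + r)) := pow_lt_pow_left₀ hst hs (by omega)
    have a2 : (1 + s) ^ (2 * m) ≤ (1 + t) ^ (2 * m) := pow_le_pow_left₀ (by linarith) (by linarith) _
    have a3 : 0 < (1 + s) ^ (2 * m) := by positivity
    have a4 : 0 ≤ s ^ (2 * (1 + r)) := by positivity
    have a5 : 0 < t ^ (2 * (1 + r)) := by positivity
    nlinarith
  have h3 : 0 < (t * (1 + s)) ^ (2 * p) := by positivity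
  have h4 : 0 ≤ s ^ (2 * (1 + r)) * (1 + s) ^ (2 * m) := by positivity
  calc (s * (1 + t)) ^ (2 * p) * (s ^ (2 * (1 + r)) * (1 + s) ^ (2 * m))
      ≤ (t * (1 + s)) ^ (2 * p) * (s ^ (2 * (1 + r)) * (1 + s) ^ (2 * m)) :=
        mul_le_mul_of_nonneg_right h1 h4
    _ < _ := mul_lt_mul_of_pos_left h2 h3

namespace Expd

variable {σ : ℝ} {F G : ℝ → ℝ}

lemma FF_pos (h : Expd σ F G) {x : ℝ} (hx : x ≠ 0) : 0 < x * F (F x) := by
  have h1 := h.pos x hx
  have h2 := h.pos (F x) (h.F_ne hx)
  have h3 : 0 < (σ * x * F x) * (σ * F x * F (F x)) := mul_pos h1 h2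
  have h4 : (σ * x * F x) * (σ * F x * F (F x)) = (σ * σ) * (F x ^ 2 * (x * F (F x))) := by ring
  rw [h4, h.σσ, one_mul] at h3
  exact pos_of_mul_pos_right h3 (sq_nonneg _)

lemma G_sign (h : Expd σ F G) {x : ℝ} (hx : x ≠ 0) : 0 < σ * x * G x := by
  have h1 := h.pos x hx
  rw [h.hG]
  have : σ * x * (σ * x + F x) = (σ * σ) * x ^ 2 + σ * x * F x := by ring
  rw [this, h.σσ]
  positivity

lemma GG_pos (h : Expd σ F G) {x : ℝ} (hx : x ≠ 0) : 0 < x * G (G x) := by
  have h1 := h.G_sign hx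
  have h2 := h.G_sign (h.G_ne hx)
  have h3 : 0 < (σ * x * G x) * (σ * G x * G (G x)) := mul_pos h1 h2
  have h4 : (σ * x * G x) * (σ * G x * G (G x)) = (σ * σ) * (G x ^ 2 * (x * G (G x))) := by ring
  rw [h4, h.σσ, one_mul] at h3
  exact pos_of_mul_pos_right h3 (sq_nonneg _)

lemma F2_pos (h : Expd σ F G) {x : ℝ} (hx : 0 < x) (k : ℕ) : 0 < F^[2 * k] x := by
  induction k with
  | zero => simpa using hx
  | succ k ih =>
    rw [show 2 * (k + 1) = 2 * k + 1 + 1 by ring, Function.iterate_succ_apply',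
      Function.iterate_succ_apply']
    exact (pos_iff_pos_of_mul_pos (h.FF_pos ih.ne')).1 ih

lemma G2_pos (h : Expd σ F G) {x : ℝ} (hx : 0 < x) (k : ℕ) : 0 < G^[2 * k] x := by
  induction k with
  | zero => simpa using hx
  | succ k ih =>
    rw [show 2 * (k + 1) = 2 * k + 1 + 1 by ring, Function.iterate_succ_apply',
      Function.iterate_succ_apply']
    exact (pos_iff_pos_of_mul_pos (h.GG_pos ih.ne')).1 ih

lemma R_le_G (h : Expd σ F G) {x : ℝ} (hx : x ≠ 0) :
    |F x| / |x| ≤ |F (G x)| / |G x| := by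
  rw [div_le_div_iff₀ (abs_pos.2 hx) (abs_pos.2 (h.G_ne hx)), h.comm, h.absG, h.absG]
  have := h.lc hx
  nlinarith

lemma R_le_F (h : Expd σ F G) {x : ℝ} (hx : x ≠ 0) :
    |F x| / |x| ≤ |F (F x)| / |F x| := by
  rw [div_le_div_iff₀ (abs_pos.2 hx) (abs_pos.2 (h.F_ne hx))]
  have := h.lc hx
  nlinarith

lemma Phi (h : Expd σ F G) {x : ℕ → ℝ} {α : ℝ}
    (hE : ∀ k, Tendsto (fun n => |F^[k] (x n)| / |x n|) atTop (𝓝 (α ^ k))) :
    ∀ j k, Tendsto (fun n => |F^[k] (G^[j] (x n))| / |x n|) atTop (𝓝 (α ^ k * (1 + α) ^ j)) := by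
  intro j
  induction j with
  | zero => intro k; simpa using hE k
  | succ j ih =>
    intro k
    have e : α ^ k * (1 + α) ^ (j + 1) = α ^ k * (1 + α) ^ j + α ^ (k + 1) * (1 + α) ^ j := by ring
    rw [e]
    refine ((ih k).add (ih (k + 1))).congr fun n => ?_
    rw [h.A_succ, add_div]

lemma back_seq (h : Expd σ F G) {u : ℝ} (hu : 0 < u) :
    ∃ s : ℕ → ℝ, s 0 = u ∧ (∀ n, s n ≠ 0) ∧ ∀ n, G (s (n + 1)) = s n := by
  choose g hg using fun x : {x : ℝ // x ≠ 0} => h.surj x.2
  let s : ℕ → {x : ℝ // x ≠ 0} := fun n => Nat.rec ⟨u, hu.ne'⟩ (fun _ y => ⟨g y, (hg y).1⟩) n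
  exact ⟨fun n => (s n).1, rfl, fun n => (s n).2, fun n => (hg (s n)).2⟩

lemma E_back (h : Expd σ F G) {s : ℕ → ℝ} (hs : ∀ n, s n ≠ 0) (hG : ∀ n, G (s (n + 1)) = s n)
    {α : ℝ} (hα : Tendsto (fun n => |F (s n)| / |s n|) atTop (𝓝 α)) :
    ∀ k, Tendsto (fun n => |F^[k] (s n)| / |s n|) atTop (𝓝 (α ^ k)) := by
  intro k
  induction k with
  | zero =>
    refine tendsto_const_nhds.congr fun n => ?_
    have := abs_pos.2 (hs n)
    simp [this.ne']
  | succ k ih =>
    rw [← tendsto_add_atTop_iff_nat 1]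
    have e : α ^ (k + 1) = α ^ k * (1 + α) - α ^ k := by ring
    rw [e]
    have h1 : Tendsto (fun n => |F^[k] (s (n + 1))| / |s (n + 1)|) atTop (𝓝 (α ^ k)) :=
      (tendsto_add_atTop_iff_nat 1).2 ih
    have h2 : Tendsto (fun n => 1 + |F (s (n + 1))| / |s (n + 1)|) atTop (𝓝 (1 + α)) :=
      tendsto_const_nhds.add ((tendsto_add_atTop_iff_nat 1).2 hα)
    refine ((ih.mul h2).sub h1).congr fun n => ?_
    have a1 := h.A_succ (s (n + 1)) k 0
    simp only [zero_add, Function.iterate_one, Function.iterate_zero, id_eq, hG] at a1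
    have a2 := h.absG (s (n + 1))
    rw [hG] at a2
    have b1 := abs_pos.2 (hs n)
    have b2 := abs_pos.2 (hs (n + 1))
    have a3 : 1 + |F (s (n + 1))| / |s (n + 1)| = |s n| / |s (n + 1)| := by
      rw [a2]; field_simp
    rw [a3, a1]
    field_simp
    ring

lemma E_fwd (h : Expd σ F G) {s : ℕ → ℝ} (hs : ∀ n, s n ≠ 0) (hG : ∀ n, G (s n) = s (n + 1))
    {α : ℝ} (hα : Tendsto (fun n => |F (s n)| / |s n|) atTop (𝓝 α)) :
    ∀ k, Tendsto (fun n => |F^[k] (s n)| / |s n|) atTop (𝓝 (α ^ k)) := by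
  intro k
  induction k with
  | zero =>
    refine tendsto_const_nhds.congr fun n => ?_
    have := abs_pos.2 (hs n)
    simp [this.ne']
  | succ k ih =>
    have e : α ^ (k + 1) = α ^ k * (1 + α) - α ^ k := by ring
    rw [e]
    have h1 : Tendsto (fun n => |F^[k] (s (n + 1))| / |s (n + 1)|) atTop (𝓝 (α ^ k)) :=
      (tendsto_add_atTop_iff_nat 1).2 ih
    have h2 : Tendsto (fun n => 1 + |F (s n)| / |s n|) atTop (𝓝 (1 + α)) :=
      tendsto_const_nhds.add hα
    refine ((h1.mul h2).sub ih).congr fun n => ?_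
    have a1 := h.A_succ (s n) k 0
    simp only [zero_add, Function.iterate_one, Function.iterate_zero, id_eq, hG] at a1
    have a2 := h.absG (s n)
    rw [hG] at a2
    have b1 := abs_pos.2 (hs n)
    have b2 := abs_pos.2 (hs (n + 1))
    have a3 : 1 + |F (s n)| / |s n| = |s (n + 1)| / |s n| := by
      rw [a2]; field_simp
    rw [a3, a1]
    field_simp
    ring

lemma exists_neg (h : Expd σ F G) {u a : ℝ} (hu : 0 < u) (ha : 0 < a) (hua : |F u| / |u| < a)
    {p q m : ℕ} (hpq : p < q) (heq : a ^ (2 * q) * (1 + a) ^ (2 * m) = (1 + a) ^ (2 * p)) :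
    ∃ x, 0 < x ∧ |F^[2 * q] (G^[2 * m] x)| < |G^[2 * p] x| := by
  obtain ⟨s, hs0, hs, hG⟩ := h.back_seq hu
  have hanti : Antitone (fun n => |F (s n)| / |s n|) := by
    refine antitone_nat_of_succ_le fun n => ?_
    have := h.R_le_G (hs (n + 1))
    rwa [hG] at this
  have hbdd : BddBelow (range (fun n => |F (s n)| / |s n|)) :=
    ⟨0, by rintro _ ⟨n, rfl⟩; positivity⟩
  have hα := tendsto_atTop_ciInf hanti hbdd
  set α := ⨅ n, |F (s n)| / |s n| with hαdef
  have hα0 : 0 ≤ α := le_ciInf fun n => by positivity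
  have hαa : α < a := by
    have := ciInf_le hbdd 0
    simp only [hs0] at this
    linarith
  have hE := h.E_back hs hG hα
  have hΦ1 := h.Phi hE (2 * m) (2 * q)
  have hΦ2 := h.Phi hE (2 * p) 0
  have hlim : α ^ (2 * q) * (1 + α) ^ (2 * m) < α ^ 0 * (1 + α) ^ (2 * p) := by
    have := mono_aux hα0 hαa m hpq
    rw [heq] at this
    have h1 : 0 < (1 + a) ^ (2 * p) := by positivity
    rw [pow_zero, one_mul]
    have h2 : (α ^ (2 * q) * (1 + α) ^ (2 * m)) * (1 + a) ^ (2 * p)
        < (1 + α) ^ (2 * p) * (1 + a) ^ (2 * p) := by linarith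
    exact lt_of_mul_lt_mul_right h2 h1.le
  have hev := hΦ1.eventually_lt hΦ2 hlim
  obtain ⟨N, hN⟩ := eventually_atTop.1 hev
  have hsp : ∀ n, 0 < s (2 * n) := by
    intro n
    induction n with
    | zero => simpa [hs0] using hu
    | succ n ih =>
      have h1 := h.GG_pos (hs (2 * n + 1 + 1))
      rw [hG, hG] at h1
      exact (pos_iff_pos_of_mul_pos h1).2 ih
  refine ⟨s (2 * N), hsp N, ?_⟩
  have h1 := hN (2 * N) (by omega)
  have h2 := abs_pos.2 (hs (2 * N))
  rw [div_lt_div_iff_of_pos_right h2] at h1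
  simpa using h1

lemma F_ge (h : Expd σ F G) {z ρ : ℝ} (hz : z ≠ 0) (hρ : 0 ≤ ρ) (hR : ρ ≤ |F z| / |z|) (j : ℕ) :
    ∀ k, ρ ^ k * |F^[j] z| ≤ |F^[j + k] z| := by
  have hR' : ∀ k, ρ * |F^[k] z| ≤ |F^[k + 1] z| := by
    intro k
    have h1 : ρ ≤ |F (F^[k] z)| / |F^[k] z| := by
      induction k with
      | zero => simpa using hR
      | succ k ih =>
        rw [Function.iterate_succ_apply']
        exact ih.trans (h.R_le_F (h.Fk_ne k hz))
    rw [le_div_iff₀ (abs_pos.2 (h.Fk_ne k hz))] at h1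
    rw [Function.iterate_succ_apply']
    exact h1
  intro k
  induction k with
  | zero => simp
  | succ k ih =>
    have := hR' (j + k)
    calc ρ ^ (k + 1) * |F^[j] z| = ρ * (ρ ^ k * |F^[j] z|) := by ring
      _ ≤ ρ * |F^[j + k] z| := mul_le_mul_of_nonneg_left ih hρ
      _ ≤ _ := this

lemma G_le (h : Expd σ F G) {z : ℝ} (hz : z ≠ 0) (hR : 1 ≤ |F z| / |z|) (n : ℕ) :
    ∀ k, |F^[k] (G^[n] z)| ≤ 2 ^ n * |F^[k + n] z| := by
  induction n with
  | zero => intro k; simp
  | succ n ih =>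
    intro k
    rw [h.A_succ]
    have h1 := ih k
    have h2 := ih (k + 1)
    have h3 := h.F_ge hz zero_le_one hR (k + n) 1
    rw [one_pow, one_mul] at h3
    rw [show k + 1 + n = k + n + 1 by ring] at h2
    have h4 : (0 : ℝ) < 2 ^ n := by positivity
    have e : k + (n + 1) = k + n + 1 := by ring
    rw [e, pow_succ]
    nlinarith

lemma A_mono (h : Expd σ F G) (x : ℝ) (k n : ℕ) : |F^[k] x| ≤ |F^[k] (G^[n] x)| := by
  induction n with
  | zero => simp
  | succ n ih =>
    rw [h.A_succ]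
    have := abs_nonneg (F^[k + 1] (G^[n] x))
    linarith

lemma exists_pos (h : Expd σ F G) {v a : ℝ} (hv : 0 < v) (ha : 0 < a) (hva : a < |F v| / |v|)
    {p q m : ℕ} (hpq : p < q) (heq : a ^ (2 * q) * (1 + a) ^ (2 * m) = (1 + a) ^ (2 * p)) :
    ∃ x, 0 < x ∧ |G^[2 * p] x| < |F^[2 * q] (G^[2 * m] x)| := by
  set s : ℕ → ℝ := fun n => G^[n] v with hsdef
  have hs : ∀ n, s n ≠ 0 := fun n => h.Gn_ne n hv.ne'
  have hG : ∀ n, G (s n) = s (n + 1) := by
    intro n; simp only [hsdef]; rw [Function.iterate_succ_apply']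
  have hmono : Monotone (fun n => |F (s n)| / |s n|) := by
    refine monotone_nat_of_le_succ fun n => ?_
    have := h.R_le_G (hs n)
    rwa [hG] at this
  by_cases hbdd : BddAbove (range (fun n => |F (s n)| / |s n|))
  · have hβ := tendsto_atTop_ciSup hmono hbdd
    set β := ⨆ n, |F (s n)| / |s n| with hβdef
    have hβa : a < β := by
      have := le_ciSup hbdd 0
      simp only [hsdef, Function.iterate_zero, id_eq] at this
      linarith
    have hE := h.E_fwd hs hG hβ
    have hΦ1 := h.Phi hE (2 * m) (2 * q)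
    have hΦ2 := h.Phi hE (2 * p) 0
    have hlim : β ^ 0 * (1 + β) ^ (2 * p) < β ^ (2 * q) * (1 + β) ^ (2 * m) := by
      have := mono_aux ha.le hβa m hpq
      rw [heq] at this
      have h1 : 0 < (1 + a) ^ (2 * p) := by positivity
      rw [pow_zero, one_mul]
      have h2 : (1 + β) ^ (2 * p) * (1 + a) ^ (2 * p)
          < (β ^ (2 * q) * (1 + β) ^ (2 * m)) * (1 + a) ^ (2 * p) := by linarith
      exact lt_of_mul_lt_mul_right h2 h1.le
    obtain ⟨N, hN⟩ := eventually_atTop.1 (hΦ2.eventually_lt hΦ1 hlim)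
    refine ⟨s (2 * N), h.G2_pos hv N, ?_⟩
    have h1 := hN (2 * N) (by omega)
    have h2 := abs_pos.2 (hs (2 * N))
    rw [div_lt_div_iff_of_pos_right h2] at h1
    simpa using h1
  · -- unbounded case
    have hunb : ∀ ρ : ℝ, ∃ n, ρ < |F (s n)| / |s n| := by
      intro ρ
      by_contra hcon
      push Not at hcon
      exact hbdd ⟨ρ, by rintro _ ⟨n, rfl⟩; exact hcon n⟩
    set ρ : ℝ := 2 ^ (2 * p) + 1 with hρ
    have hρ1 : 1 ≤ ρ := by
      have : (0 : ℝ) ≤ 2 ^ (2 * p) := by positivity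
      rw [hρ]; linarith
    obtain ⟨n, hn⟩ := hunb ρ
    have hn2 : ρ ≤ |F (s (2 * n))| / |s (2 * n)| := hn.le.trans (hmono (by omega))
    set z := s (2 * n) with hz
    have hz0 : z ≠ 0 := hs _
    refine ⟨z, h.G2_pos hv n, ?_⟩
    have h1 := h.G_le hz0 (hρ1.trans hn2) (2 * p) 0
    simp only [Function.iterate_zero, id_eq, zero_add] at h1
    have h2 := h.F_ge hz0 (by linarith) hn2 (2 * p) (2 * q - 2 * p)
    rw [show 2 * p + (2 * q - 2 * p) = 2 * q by omega] at h2
    have h3 := h.A_mono z (2 * q) (2 * m)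
    have h4 : ρ ≤ ρ ^ (2 * q - 2 * p) := le_self_pow₀ hρ1 (by omega)
    have h5 : 0 < |F^[2 * p] z| := abs_pos.2 (h.Fk_ne _ hz0)
    have h6 : 2 ^ (2 * p) * |F^[2 * p] z| < ρ * |F^[2 * p] z| :=
      mul_lt_mul_of_pos_right (by rw [hρ]; linarith) h5
    have h7 : ρ * |F^[2 * p] z| ≤ ρ ^ (2 * q - 2 * p) * |F^[2 * p] z| :=
      mul_le_mul_of_nonneg_right h4 h5.le
    linarith

lemma theta_inj : Set.InjOn (fun a : ℝ => Real.log (a ^ 2) / Real.log ((1 + a) ^ 2)) (Ioi 0) := by
  have key : ∀ a b : ℝ, 0 < a → a < b →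
      Real.log (a ^ 2) / Real.log ((1 + a) ^ 2) ≠ Real.log (b ^ 2) / Real.log ((1 + b) ^ 2) := by
    intro a b ha hab heq
    have hb : 0 < b := ha.trans hab
    simp only [Real.log_pow] at heq
    push_cast at heq
    have la : 0 < Real.log (1 + a) := Real.log_pos (by linarith)
    have lb : 0 < Real.log (1 + b) := Real.log_pos (by linarith)
    have heq2 : Real.log a * Real.log (1 + b) = Real.log b * Real.log (1 + a) := by
      rw [div_eq_div_iff (by positivity) (by positivity)] at heq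
      linarith
    set θ := Real.log a / Real.log (1 + a) with hθ
    have e1 : Real.log a = θ * Real.log (1 + a) := by rw [hθ]; field_simp
    have e2 : Real.log b = θ * Real.log (1 + b) := by
      have : Real.log b * Real.log (1 + a) = θ * Real.log (1 + b) * Real.log (1 + a) := by
        rw [← heq2, e1]; ring
      exact mul_right_cancel₀ la.ne' this
    have hθ1 : θ < 1 := by
      rw [hθ, div_lt_one la]
      exact Real.log_lt_log ha (by linarith)
    -- log b - log a > log (1+b) - log (1+a) > 0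
    have h1 : Real.log (1 + b) - Real.log (1 + a) < Real.log b - Real.log a := by
      rw [← Real.log_div (by linarith) (by linarith), ← Real.log_div hb.ne' ha.ne']
      apply Real.log_lt_log (by positivity)
      rw [div_lt_div_iff₀ (by linarith) ha]
      nlinarith
    have h2 : 0 < Real.log (1 + b) - Real.log (1 + a) := by
      have := Real.log_lt_log (show 0 < 1 + a by linarith) (show 1 + a < 1 + b by linarith)
      linarith
    have h3 : Real.log b - Real.log a = θ * (Real.log (1 + b) - Real.log (1 + a)) := by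
      rw [e1, e2]; ring
    nlinarith
  intro a ha b hb heq
  rcases lt_trichotomy a b with h | h | h
  · exact absurd heq (key a b ha h)
  · exact h
  · exact absurd heq.symm (key b a hb h)

/-- The expanding theorem: `F` is linear on the positive half-line. -/
theorem linear (h : Expd σ F G) : ∃ c : ℝ, 0 < c ∧ ∀ x, 0 < x → F x = σ * c * x := by
  set R : ℝ → ℝ := fun x => |F x| / |x| with hRdef
  have hRpos : ∀ x, 0 < x → 0 < R x := fun x hx =>
    div_pos (abs_pos.2 (h.F_ne hx.ne')) (abs_pos.2 hx.ne')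
  have hconst := abstract_const (Ioi 0) (fun x hx => hx) (fun x _ y hy _ => hy) R
    (by
      intro x hx
      exact (h.cont.continuousAt.abs).div continuousAt_id.abs (abs_ne_zero.2 (ne_of_gt hx)))
    (Ioi 0) ordConnected_Ioi (fun x hx => hRpos x hx)
    (fun a => a ^ 2) (fun a => (1 + a) ^ 2)
    (by fun_prop) (by fun_prop)
    (by intro a ha; simp only [mem_Ioi] at ha; positivity)
    (by intro a ha; simp only [mem_Ioi] at ha; positivity)
    (by
      intro a ha
      simp only [mem_Ioi] at ha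
      nlinarith)
    theta_inj
    (fun a x => 0 < x ∧ Pure F a x)
    (by
      rintro a x ⟨hx, hp⟩
      refine ⟨hx, ?_⟩
      have := hp 0
      simp only [zero_add, Function.iterate_one, Function.iterate_zero, id_eq] at this
      simp only [hRdef]
      rw [this]
      field_simp)
    (by
      rintro a x ⟨hx, hp⟩
      have h1 : F (F x) = a ^ 2 * x := by
        have e := Pure.iter hp 2
        have hpos : 0 < F (F x) := (pos_iff_pos_of_mul_pos (h.FF_pos hx.ne')).1 hx
        have e' : |F (F x)| = a ^ 2 * |x| := e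
        rwa [abs_of_pos hpos, abs_of_pos hx] at e'
      have hpos : 0 < F (F x) := (pos_iff_pos_of_mul_pos (h.FF_pos hx.ne')).1 hx
      show 0 < a ^ 2 * x ∧ Pure F a (a ^ 2 * x)
      rw [← h1]
      exact ⟨hpos, pureF (pureF hp)⟩)
    (by
      rintro a x ⟨hx, hp⟩ _
      have hpos : 0 < G (G x) := (pos_iff_pos_of_mul_pos (h.GG_pos hx.ne')).1 hx
      have h1 : G (G x) = (1 + a) ^ 2 * x := by
        have e' : |G (G x)| = (1 + a) ^ 2 * |x| := by
          rw [pure_absG h (pureG h hp), pure_absG h hp]; ring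
        rwa [abs_of_pos hpos, abs_of_pos hx] at e'
      show 0 < (1 + a) ^ 2 * x ∧ Pure F a ((1 + a) ^ 2 * x)
      rw [← h1]
      exact ⟨hpos, pureG h (pureG h hp)⟩)
    (by
      rintro a x ⟨hx, hp⟩ hmem
      obtain ⟨y, hy, hyx⟩ := h.surj hx.ne'
      obtain ⟨z, hz, hzy⟩ := h.surj hy
      have hpz : Pure F a z := by
        apply pure_back h hz
        rw [hzy]
        apply pure_back h hy
        rw [hyx]
        exact hp
      have hGG : G (G z) = x := by rw [hzy, hyx]
      have hzpos : 0 < z := by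
        have := h.GG_pos hz
        rw [hGG] at this
        exact (pos_iff_pos_of_mul_pos this).2 hx
      have h1 : x = (1 + a) ^ 2 * z := by
        have e' : |G (G z)| = (1 + a) ^ 2 * |z| := by
          rw [pure_absG h (pureG h hpz), pure_absG h hpz]; ring
        rwa [hGG, abs_of_pos hx, abs_of_pos hzpos] at e'
      have hne : (1 + a) ^ 2 ≠ 0 := by
        intro h0
        rw [h0, zero_mul] at h1
        exact hx.ne' h1
      have h2 : ((1 + a) ^ 2)⁻¹ * x = z := by
        rw [h1, inv_mul_cancel_left₀ hne]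
      show 0 < ((1 + a) ^ 2)⁻¹ * x ∧ Pure F a (((1 + a) ^ 2)⁻¹ * x)
      rw [h2]
      exact ⟨hzpos, hpz⟩)
    (by
      rintro a x a0 x0 ha hx hx0 hP
      refine ⟨hx0, fun k => ?_⟩
      have c1 : Continuous fun y => |F^[k + 1] y| := (h.cont.iterate _).abs
      have c2 : Continuous fun y => |F^[k] y| := (h.cont.iterate _).abs
      have l1 := (c1.tendsto x0).comp hx
      have l2 := ha.mul ((c2.tendsto x0).comp hx)
      refine tendsto_nhds_unique l1 (l2.congr fun n => ?_)
      simp only [Function.comp]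
      exact ((hP n).2 k).symm)
    (by
      rintro u hu v hv a hua hav ⟨r, hr⟩
      simp only [mem_Ioi] at hu hv
      have ha : 0 < a := lt_trans (hRpos u hu) hua
      simp only [Real.log_pow] at hr
      push_cast at hr
      have hr' : Real.log a = r * Real.log (1 + a) := by linarith
      have la : 0 < Real.log (1 + a) := Real.log_pos (by linarith)
      have hr1 : (r : ℝ) < 1 := by
        have : Real.log a < Real.log (1 + a) := Real.log_lt_log ha (by linarith)
        rw [hr'] at this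
        by_contra hc
        push Not at hc
        nlinarith
      have hrnum : r.num < r.den := by
        have : r < 1 := by exact_mod_cast hr1
        have h1 := Rat.num_div_den r
        have hd : (0 : ℚ) < r.den := by exact_mod_cast r.den_pos
        rw [← h1, div_lt_one hd] at this
        exact_mod_cast this
      set q := r.den with hq
      set p := r.num.toNat with hp
      set m := (-r.num).toNat with hm
      have hpq : p < q := by
        have := r.den_pos
        omega
      have hpm : (p : ℤ) - m = r.num := by omega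
      have hlog : (q : ℝ) * Real.log a + m * Real.log (1 + a) = p * Real.log (1 + a) := by
        have h1 : (q : ℝ) * r = (p : ℝ) - m := by
          have h2 : (r : ℝ) = (r.num : ℝ) / (r.den : ℝ) := by
            exact_mod_cast (Rat.num_div_den r).symm
          have hd : (0 : ℝ) < q := by exact_mod_cast r.den_pos
          rw [h2, ← hq]
          have h3 : ((p : ℤ) : ℝ) - ((m : ℤ) : ℝ) = (r.num : ℝ) := by exact_mod_cast hpm
          push_cast at h3
          rw [h3]
          field_simp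
        rw [hr', ← mul_assoc, h1]
        ring
      have heq : a ^ (2 * q) * (1 + a) ^ (2 * m) = (1 + a) ^ (2 * p) := by
        have h1a : 0 < 1 + a := by linarith
        apply Real.log_injOn_pos (mem_Ioi.2 (by positivity)) (mem_Ioi.2 (by positivity))
        rw [Real.log_mul (by positivity) (by positivity), Real.log_pow, Real.log_pow, Real.log_pow]
        push_cast
        linarith
      obtain ⟨x1, hx1, hlt1⟩ := h.exists_neg hu ha hua hpq heq
      obtain ⟨x2, hx2, hlt2⟩ := h.exists_pos hv ha hav hpq heq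
      have hposl : ∀ x, 0 < x → |F^[2 * q] (G^[2 * m] x)| = F^[2 * q] (G^[2 * m] x) := fun x hx =>
        abs_of_pos (h.F2_pos (h.G2_pos hx m) q)
      have hposr : ∀ x, 0 < x → |G^[2 * p] x| = G^[2 * p] x := fun x hx =>
        abs_of_pos (h.G2_pos hx p)
      rw [hposl _ hx1, hposr _ hx1] at hlt1
      rw [hposl _ hx2, hposr _ hx2] at hlt2
      obtain ⟨x0, hx0, he⟩ := isPreconnected_Ioi.intermediate_value₂ (mem_Ioi.2 hx1)
        (mem_Ioi.2 hx2)
        (f := fun x => F^[2 * q] (G^[2 * m] x)) (g := fun x => G^[2 * p] x)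
        ((h.cont.iterate _).comp (h.contG.iterate _)).continuousOn
        (h.contG.iterate _).continuousOn hlt1.le hlt2.le
      have hx0' : 0 < x0 := hx0
      have he : F^[2 * q] (G^[2 * m] x0) = G^[2 * p] x0 := he
      have hpure := h.Pure_coin hx0'.ne' (show 2 * p < 2 * q by omega) he
      set b := |F x0| / |x0| with hb
      have hb0 : 0 < b := hRpos x0 hx0'
      refine ⟨x0, hx0', ?_⟩
      have hbeq : b ^ (2 * q) * (1 + b) ^ (2 * m) = (1 + b) ^ (2 * p) := by
        have e1 := (pureGn h hpure (2 * m))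
        have e2 := Pure.iter e1.1 (2 * q)
        have e3 := (pureGn h hpure (2 * p)).2
        rw [e1.2, he, e3] at e2
        have hx0a : |x0| ≠ 0 := abs_ne_zero.2 hx0'.ne'
        have : (1 + b) ^ (2 * p) * |x0| = (b ^ (2 * q) * (1 + b) ^ (2 * m)) * |x0| := by
          rw [e2]; ring
        exact (mul_right_cancel₀ hx0a this).symm
      have hab : b = a := by
        rcases lt_trichotomy b a with hlt | h' | hlt
        · have := mono_aux hb0.le hlt m hpq
          rw [hbeq, heq] at this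
          linarith [mul_comm ((1 + b) ^ (2 * p)) ((1 + a) ^ (2 * p))]
        · exact h'
        · have := mono_aux ha.le hlt m hpq
          rw [hbeq, heq] at this
          linarith [mul_comm ((1 + b) ^ (2 * p)) ((1 + a) ^ (2 * p))]
      rw [← hab]
      exact hpure)
  refine ⟨R 1, hRpos 1 one_pos, fun x hx => ?_⟩
  have h1 := hconst x hx 1 (mem_Ioi.2 one_pos)
  have h2 : |F x| = R 1 * x := by
    rw [← h1]
    simp only [hRdef]
    rw [abs_of_pos hx]
    field_simp
  have h3 := h.pos x hx.ne'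
  have h4 : 0 < σ * F x := by
    have : σ * x * F x = x * (σ * F x) := by ring
    rw [this] at h3
    exact (pos_iff_pos_of_mul_pos h3).1 hx
  have h5 : |F x| = σ * F x := by
    rcases h.hσ with hs | hs
    · rw [hs, one_mul] at h4 ⊢; exact abs_of_pos h4
    · rw [hs] at h4 ⊢
      rw [abs_of_neg (by linarith)]; ring
  rw [h5] at h2
  have h6 : σ * (σ * F x) = σ * (R 1 * x) := by rw [h2]
  rw [← mul_assoc, h.σσ, one_mul] at h6
  rw [h6]; ring

end Expd

end Pool.Agent.TH336.FE
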